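import Pool.Agent.H4.Grig.Defs

/-!
# The wreath recursion of the Grigorchuk group is injective on Lysionok's presentation
-/

namespace Pool.Agent.H4.Grig

/-! ### Dihedral groups of order eight -/

section Dihedral

variable {K : Type*} [Group K]

theorem dih_left_x {x y : K} (hx : x ^ 2 = 1) (hy : y ^ 2 = 1) {z : K}
    (h : ∃ k : ℤ, z = (x * y) ^ k ∨ z = (x * y) ^ k * x) :
    ∃ k : ℤ, x * z = (x * y) ^ k ∨ x * z = (x * y) ^ k * x := by
  have hx' : x⁻¹ = x := inv_eq_of_mul_eq_one_left (by rw [← hx, sq])
  have hy' : y⁻¹ = y := inv_eq_of_mul_eq_one_left (by rw [← hy, sq])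
  have hxx : x * x = 1 := by rw [← sq, hx]
  have key : ∀ k : ℤ, x * (x * y) ^ k = (x * y) ^ (-k) * x := by
    intro k
    have h1 : x * (x * y) * x⁻¹ = (x * y)⁻¹ := by
      rw [hx', mul_inv_rev, hx', hy', ← mul_assoc, hxx, one_mul]
    have h2 : x * (x * y) ^ k * x⁻¹ = (x * y) ^ (-k) := by
      rw [← conj_zpow, h1, inv_zpow, zpow_neg]
    rw [← h2, inv_mul_cancel_right]
  obtain ⟨k, hk | hk⟩ := h
  · exact ⟨-k, Or.inr (by rw [hk, key])⟩
  · exact ⟨-k, Or.inl (by rw [hk, ← mul_assoc, key, mul_assoc, hxx, mul_one])⟩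

theorem dih_left_y {x y : K} (hx : x ^ 2 = 1) (hy : y ^ 2 = 1) {z : K}
    (h : ∃ k : ℤ, z = (x * y) ^ k ∨ z = (x * y) ^ k * x) :
    ∃ k : ℤ, y * z = (x * y) ^ k ∨ y * z = (x * y) ^ k * x := by
  have hx' : x⁻¹ = x := inv_eq_of_mul_eq_one_left (by rw [← hx, sq])
  have hy' : y⁻¹ = y := inv_eq_of_mul_eq_one_left (by rw [← hy, sq])
  have hyx : y = (x * y) ^ (-1 : ℤ) * x := by
    rw [zpow_neg_one, mul_inv_rev, hx', hy', mul_assoc, ← sq, hx, mul_one]
  obtain ⟨k, hk⟩ := dih_left_x hx hy h
  have h3 : y * z = (x * y) ^ (-1 : ℤ) * (x * z) := by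
    rw [← mul_assoc, ← hyx]
  rw [h3]
  rcases hk with hk | hk
  · exact ⟨-1 + k, Or.inl (by rw [hk, zpow_add])⟩
  · exact ⟨-1 + k, Or.inr (by rw [hk, zpow_add, mul_assoc])⟩

/-- If `x² = y² = 1`, every element of the subgroup generated by `x`, `y` is
`(xy)^k` or `(xy)^k x`. -/
theorem mem_closure_pair_cases {x y : K} (hx : x ^ 2 = 1) (hy : y ^ 2 = 1)
    {z : K} (hz : z ∈ Subgroup.closure ({x, y} : Set K)) :
    ∃ k : ℤ, z = (x * y) ^ k ∨ z = (x * y) ^ k * x := by
  have hx' : x⁻¹ = x := inv_eq_of_mul_eq_one_left (by rw [← hx, sq])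
  have hy' : y⁻¹ = y := inv_eq_of_mul_eq_one_left (by rw [← hy, sq])
  induction hz using Subgroup.closure_induction_left with
  | one => exact ⟨0, Or.inl (by simp)⟩
  | mul_left g hg z _ ih =>
    rcases (by simpa using hg : g = x ∨ g = y) with rfl | rfl
    · exact dih_left_x hx hy ih
    · exact dih_left_y hx hy ih
  | inv_mul_cancel g hg z _ ih =>
    rcases (by simpa using hg : g = x ∨ g = y) with rfl | rfl
    · rw [hx']
      exact dih_left_x hx hy ih
    · rw [hy']
      exact dih_left_y hx hy ih

/-- The dihedral group of order eight has exponent four. -/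
theorem pow_four_eq_one {x y : K} (hx : x ^ 2 = 1) (hy : y ^ 2 = 1) (hxy : (x * y) ^ 4 = 1)
    {z : K} (hz : z ∈ Subgroup.closure ({x, y} : Set K)) : z ^ 4 = 1 := by
  have hx' : x⁻¹ = x := inv_eq_of_mul_eq_one_left (by rw [← hx, sq])
  have hy' : y⁻¹ = y := inv_eq_of_mul_eq_one_left (by rw [← hy, sq])
  have hxx : x * x = 1 := by rw [← sq, hx]
  obtain ⟨k, hk | hk⟩ := mem_closure_pair_cases hx hy hz
  · rw [hk, ← zpow_natCast, ← zpow_mul, mul_comm, zpow_mul]
    norm_cast
    rw [hxy, one_zpow]
  · have h1 : x * (x * y) * x⁻¹ = (x * y)⁻¹ := by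
      rw [hx', mul_inv_rev, hx', hy', ← mul_assoc, hxx, one_mul]
    have h2 : x * (x * y) ^ k * x⁻¹ = (x * y) ^ (-k) := by
      rw [← conj_zpow, h1, inv_zpow, zpow_neg]
    have h3 : z ^ 2 = 1 := by
      rw [sq, hk]
      calc (x * y) ^ k * x * ((x * y) ^ k * x) = (x * y) ^ k * (x * (x * y) ^ k * x⁻¹) := by
            rw [hx']; simp only [mul_assoc]
        _ = 1 := by rw [h2, ← zpow_add, add_neg_cancel, zpow_zero]
    rw [show 4 = 2 * 2 from rfl, pow_mul, h3, one_pow]

/-- A homomorphism from the free group `F` whose values on letters lie in a dihedral group of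
order eight kills fourth powers. -/
theorem lift_pow_four {x y : K} (hx : x ^ 2 = 1) (hy : y ^ 2 = 1) (hxy : (x * y) ^ 4 = 1)
    (f : Letter → K) (hf : ∀ l, f l ∈ Subgroup.closure ({x, y} : Set K)) (w : F) :
    (FreeGroup.lift f w) ^ 4 = 1 := by
  apply pow_four_eq_one hx hy hxy
  refine FreeGroup.induction_on w ?_ ?_ ?_ ?_
  · simpa using Subgroup.one_mem _
  · intro l
    simpa using hf l
  · intro l _
    simpa using Subgroup.inv_mem _ (hf l)
  · intro u v hu hv
    rw [map_mul]
    exact Subgroup.mul_mem _ hu hv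

end Dihedral

/-! ### Relations in `G` -/

theorem a_sq : a * a = 1 := by
  have : (PresentedGroup.mk rels) (fa ^ 2) = 1 := PresentedGroup.one_of_mem (by simp [rels])
  rw [sq, map_mul] at this
  exact this

theorem b_sq : b * b = 1 := by
  have : (PresentedGroup.mk rels) (fb ^ 2) = 1 := PresentedGroup.one_of_mem (by simp [rels])
  rw [sq, map_mul] at this
  exact this

theorem c_sq : c * c = 1 := by
  have : (PresentedGroup.mk rels) (fc ^ 2) = 1 := PresentedGroup.one_of_mem (by simp [rels])
  rw [sq, map_mul] at this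
  exact this

theorem d_sq : d * d = 1 := by
  have : (PresentedGroup.mk rels) (fd ^ 2) = 1 := PresentedGroup.one_of_mem (by simp [rels])
  rw [sq, map_mul] at this
  exact this

theorem bcd : b * c * d = 1 := by
  have : (PresentedGroup.mk rels) (fb * fc * fd) = 1 :=
    PresentedGroup.one_of_mem (by simp [rels])
  rw [map_mul, map_mul] at this
  exact this

theorem a_inv : a⁻¹ = a := inv_eq_of_mul_eq_one_left a_sq
theorem b_inv : b⁻¹ = b := inv_eq_of_mul_eq_one_left b_sq
theorem c_inv : c⁻¹ = c := inv_eq_of_mul_eq_one_left c_sq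
theorem d_inv : d⁻¹ = d := inv_eq_of_mul_eq_one_left d_sq

theorem b_mul_c : b * c = d := by
  have := bcd
  rw [mul_eq_one_iff_eq_inv, d_inv] at this
  exact this

theorem c_mul_b : c * b = d := by
  rw [← d_inv, ← b_mul_c, mul_inv_rev, b_inv, c_inv]

theorem b_mul_d : b * d = c := by rw [← b_mul_c, ← mul_assoc, b_sq, one_mul]
theorem d_mul_b : d * b = c := by rw [← c_mul_b, mul_assoc, b_sq, mul_one]
theorem c_mul_d : c * d = b := by rw [← c_mul_b, ← mul_assoc, c_sq, one_mul]
theorem d_mul_c : d * c = b := by rw [← b_mul_c, mul_assoc, c_sq, mul_one]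

theorem sigma_iter_mem (n : ℕ) : PresentedGroup.mk rels (sigma^[n] ((fa * fd) ^ 4)) = 1 :=
  PresentedGroup.one_of_mem (Or.inr ⟨n, Or.inl rfl⟩)

theorem sigma_iter_mem' (n : ℕ) :
    PresentedGroup.mk rels (sigma^[n] ((fa * fd * fa * fc * fa * fc) ^ 4)) = 1 :=
  PresentedGroup.one_of_mem (Or.inr ⟨n, Or.inr rfl⟩)

theorem mk_fa : PresentedGroup.mk rels fa = a := rfl
theorem mk_fb : PresentedGroup.mk rels fb = b := rfl
theorem mk_fc : PresentedGroup.mk rels fc = c := rfl
theorem mk_fd : PresentedGroup.mk rels fd = d := rfl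

theorem ad_pow : (a * d) ^ 4 = 1 := by
  have := sigma_iter_mem 0
  simpa [mk_fa, mk_fd] using this

theorem adacac_pow : (a * d * a * c * a * c) ^ 4 = 1 := by
  have := sigma_iter_mem' 0
  simpa [mk_fa, mk_fd, mk_fc] using this

theorem sigma_fa : sigma fa = fa * fc * fa := by simp [sigma, fa]
theorem sigma_fb : sigma fb = fd := by simp [sigma, fb]
theorem sigma_fc : sigma fc = fb := by simp [sigma, fc]
theorem sigma_fd : sigma fd = fc := by simp [sigma, fd]

theorem acac_pow : (a * c * a * c) ^ 4 = 1 := by
  have := sigma_iter_mem 1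
  simpa [mk_fa, mk_fc, sigma_fa, sigma_fd] using this

/-- The lift to `G` of a map on letters, provided the relations hold. -/
theorem lift_rels {K : Type*} [Group K] (f : Letter → K)
    (ha : f Letter.a * f Letter.a = 1) (hb : f Letter.b * f Letter.b = 1)
    (hc : f Letter.c * f Letter.c = 1) (hd : f Letter.d * f Letter.d = 1)
    (hbcd : f Letter.b * f Letter.c * f Letter.d = 1)
    (h4 : ∀ n : ℕ, ∀ u : F, u = fa * fd ∨ u = fa * fd * fa * fc * fa * fc →
      (FreeGroup.lift f (sigma^[n] u)) ^ 4 = 1) :
    ∀ r ∈ rels, FreeGroup.lift f r = 1 := by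
  rintro r (hr | ⟨n, rfl | rfl⟩)
  · simp only [Set.mem_insert_iff, Set.mem_singleton_iff] at hr
    rcases hr with rfl | rfl | rfl | rfl | rfl
    · simp [fa, sq, ha]
    · simp [fb, sq, hb]
    · simp [fc, sq, hc]
    · simp [fd, sq, hd]
    · simp [fb, fc, fd, hbcd]
  · rw [iterate_map_pow, map_pow]
    exact h4 n _ (Or.inl rfl)
  · rw [iterate_map_pow, map_pow]
    exact h4 n _ (Or.inr rfl)

/-- `σ` induces an endomorphism of `G`. -/
def sig : G →* G :=
  PresentedGroup.toGroup (f := fun l => PresentedGroup.mk rels (sigma (FreeGroup.of l)))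
    (lift_rels _ (by
        have : (a * c * a) * (a * c * a) = 1 := by
          calc (a * c * a) * (a * c * a) = a * c * (a * a) * c * a := by simp only [mul_assoc]
            _ = 1 := by rw [a_sq, mul_one, mul_assoc a, c_sq, mul_one, a_sq]
        simpa [sigma, mk_fa, mk_fc] using this)
      (by simpa [sigma, mk_fd] using d_sq) (by simpa [sigma, mk_fb] using b_sq)
      (by simpa [sigma, mk_fc] using c_sq)
      (by simpa [sigma, mk_fd, mk_fb, mk_fc, d_mul_b] using c_sq)
      (by
        intro n u hu
        have h : FreeGroup.lift (fun l => PresentedGroup.mk rels (sigma (FreeGroup.of l))) =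
            (PresentedGroup.mk rels).comp sigma := by ext l; simp
        rw [h, MonoidHom.comp_apply, ← map_pow, ← map_pow, ← iterate_map_pow,
          ← Function.iterate_succ_apply' (f := sigma)]
        rcases hu with rfl | rfl
        · exact sigma_iter_mem (n + 1)
        · exact sigma_iter_mem' (n + 1)))

theorem sig_a : sig a = a * c * a := by
  show PresentedGroup.toGroup _ (PresentedGroup.of _) = _
  rw [PresentedGroup.toGroup.of]
  simp [sigma, mk_fa, mk_fc]

theorem sig_b : sig b = d := by
  show PresentedGroup.toGroup _ (PresentedGroup.of _) = _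
  rw [PresentedGroup.toGroup.of]
  simp [sigma, mk_fd]

theorem sig_c : sig c = b := by
  show PresentedGroup.toGroup _ (PresentedGroup.of _) = _
  rw [PresentedGroup.toGroup.of]
  simp [sigma, mk_fb]

theorem sig_d : sig d = c := by
  show PresentedGroup.toGroup _ (PresentedGroup.of _) = _
  rw [PresentedGroup.toGroup.of]
  simp [sigma, mk_fc]

/-- The images of the letters under `θ`. -/
def thetaFun : Letter → G
  | Letter.a => d
  | Letter.b => 1
  | Letter.c => a
  | Letter.d => a

theorem thetaFun_pow (w : F) : (FreeGroup.lift thetaFun w) ^ 4 = 1 := by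
  refine lift_pow_four (x := a) (y := d) (by rw [sq, a_sq]) (by rw [sq, d_sq]) ad_pow _ ?_ w
  rintro (_ | _ | _ | _)
  · exact Subgroup.subset_closure (by simp [thetaFun])
  · exact Subgroup.one_mem _
  · exact Subgroup.subset_closure (by simp [thetaFun])
  · exact Subgroup.subset_closure (by simp [thetaFun])

/-- The homomorphism `θ : G → G`, `a ↦ d`, `b ↦ 1`, `c ↦ a`, `d ↦ a`. -/
def theta : G →* G :=
  PresentedGroup.toGroup (f := thetaFun)
    (lift_rels _ (by simpa [thetaFun] using d_sq) (by simp [thetaFun])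
      (by simpa [thetaFun] using a_sq) (by simpa [thetaFun] using a_sq)
      (by simpa [thetaFun] using a_sq) (fun n u _ => thetaFun_pow _))

theorem theta_a : theta a = d := PresentedGroup.toGroup.of _
theorem theta_b : theta b = 1 := PresentedGroup.toGroup.of _
theorem theta_c : theta c = a := PresentedGroup.toGroup.of _
theorem theta_d : theta d = a := PresentedGroup.toGroup.of _

/-- The images of the letters under `π`. -/
def piFun : Letter → Equiv.Perm (Fin 4)
  | Letter.a => Equiv.swap 0 1 * Equiv.swap 2 3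
  | Letter.b => 1
  | Letter.c => Equiv.swap 1 3
  | Letter.d => Equiv.swap 1 3

theorem piFun_pow (w : F) : (FreeGroup.lift piFun w) ^ 4 = 1 := by
  refine lift_pow_four (x := Equiv.swap 0 1 * Equiv.swap 2 3) (y := Equiv.swap 1 3)
    (by decide) (by decide) (by decide) _ ?_ w
  rintro (_ | _ | _ | _)
  · exact Subgroup.subset_closure (by simp [piFun])
  · exact Subgroup.one_mem _
  · exact Subgroup.subset_closure (by simp [piFun])
  · exact Subgroup.subset_closure (by simp [piFun])

/-- The homomorphism from `G` onto a dihedral group of order eight. -/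
def pi : G →* Equiv.Perm (Fin 4) :=
  PresentedGroup.toGroup (f := piFun)
    (lift_rels _ (by decide) (by decide) (by decide) (by decide) (by decide)
      (fun n u _ => piFun_pow _))

theorem pi_a : pi a = Equiv.swap 0 1 * Equiv.swap 2 3 := PresentedGroup.toGroup.of _
theorem pi_b : pi b = 1 := PresentedGroup.toGroup.of _
theorem pi_c : pi c = Equiv.swap 1 3 := PresentedGroup.toGroup.of _
theorem pi_d : pi d = Equiv.swap 1 3 := PresentedGroup.toGroup.of _

/-! ### The wreath recursion -/

/-- The permutation of `Bool × G` given by a pair of elements of `G`. -/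
def pair : G × G →* Equiv.Perm (Bool × G) where
  toFun p :=
    { toFun := fun z => (z.1, (if z.1 then p.2 else p.1) * z.2)
      invFun := fun z => (z.1, (if z.1 then p.2⁻¹ else p.1⁻¹) * z.2)
      left_inv := fun z => by rcases z with ⟨_ | _, h⟩ <;> simp
      right_inv := fun z => by rcases z with ⟨_ | _, h⟩ <;> simp }
  map_one' := by ext ⟨_ | _, h⟩ <;> simp
  map_mul' p q := by
    apply Equiv.ext
    rintro ⟨_ | _, h⟩ <;> simp [mul_assoc]

theorem pair_false (p : G × G) (h : G) : pair p (false, h) = (false, p.1 * h) := rfl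
theorem pair_true (p : G × G) (h : G) : pair p (true, h) = (true, p.2 * h) := rfl

/-- The flip of `Bool × G`. -/
def flip : Equiv.Perm (Bool × G) where
  toFun z := (!z.1, z.2)
  invFun z := (!z.1, z.2)
  left_inv z := by simp
  right_inv z := by simp

theorem flip_apply (x : Bool) (h : G) : flip (x, h) = (!x, h) := rfl

theorem flip_sq : flip * flip = 1 := by
  apply Equiv.ext
  rintro ⟨_ | _, h⟩ <;> simp [flip_apply]

theorem flip_pair_flip (u v : G) : flip * pair (u, v) * flip = pair (v, u) := by
  apply Equiv.ext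
  rintro ⟨_ | _, h⟩ <;> simp [flip_apply, pair_true, pair_false]

/-- The wreath recursion on letters. -/
def psiFun : Letter → Equiv.Perm (Bool × G)
  | Letter.a => flip
  | Letter.b => pair (a, c)
  | Letter.c => pair (a, d)
  | Letter.d => pair (1, b)

theorem psiFun_sigma (w : F) :
    FreeGroup.lift psiFun (sigma w) =
      pair (FreeGroup.lift thetaFun w, PresentedGroup.mk rels w) := by
  have h : (FreeGroup.lift psiFun).comp sigma =
      pair.comp ((FreeGroup.lift thetaFun).prod (PresentedGroup.mk rels)) := by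
    ext1 l
    rcases l with _ | _ | _ | _
    · simp only [MonoidHom.comp_apply, sigma, FreeGroup.lift_apply_of, MonoidHom.prod_apply,
        map_mul, fa, fc, psiFun, thetaFun, flip_pair_flip]
      rfl
    · simp only [MonoidHom.comp_apply, sigma, FreeGroup.lift_apply_of, MonoidHom.prod_apply,
        map_mul, fd, psiFun, thetaFun]
      rfl
    · simp only [MonoidHom.comp_apply, sigma, FreeGroup.lift_apply_of, MonoidHom.prod_apply,
        map_mul, fb, psiFun, thetaFun]
      rfl
    · simp only [MonoidHom.comp_apply, sigma, FreeGroup.lift_apply_of, MonoidHom.prod_apply,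
        map_mul, fc, psiFun, thetaFun]
      rfl
  exact DFunLike.congr_fun h w

theorem psiFun_ad : (flip * pair (1, b)) ^ 4 = 1 := by
  have h1 : (flip * pair (1, b)) ^ 2 = pair (b, b) := by
    rw [sq, ← mul_assoc, flip_pair_flip, ← map_mul]
    simp
  rw [show 4 = 2 * 2 from rfl, pow_mul, h1, ← map_pow, Prod.pow_mk, sq, b_sq]
  exact map_one pair

theorem psiFun_adacac :
    (flip * pair (1, b) * flip * pair (a, d) * flip * pair (a, d)) ^ 4 = 1 := by
  have h1 : (flip * pair (1, b) * flip * pair (a, d) * flip * pair (a, d)) ^ 2 =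
      pair (b, d * a * b * a * d) := by
    have e1 : flip * pair (1, b) * flip * pair (a, d) * flip * pair (a, d) =
        pair (b * a, d) * flip * pair (a, d) := by
      rw [flip_pair_flip, ← map_mul]
      simp
    rw [e1, sq]
    calc pair (b * a, d) * flip * pair (a, d) * (pair (b * a, d) * flip * pair (a, d))
        = pair (b * a, d) * (flip * (pair (a, d) * pair (b * a, d)) * flip) * pair (a, d) := by
          simp only [mul_assoc]
      _ = pair (b, d * a * b * a * d) := by
          rw [← map_mul, Prod.mk_mul_mk, flip_pair_flip, ← map_mul, ← map_mul, Prod.mk_mul_mk,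
            Prod.mk_mul_mk, d_sq, mul_one, mul_assoc b a a, a_sq, mul_one]
          simp only [mul_assoc]
  rw [show 4 = 2 * 2 from rfl, pow_mul, h1, ← map_pow, Prod.pow_mk, sq, b_sq]
  have h2 : (d * a * b * a * d) ^ 2 = 1 := by
    rw [sq]
    calc d * a * b * a * d * (d * a * b * a * d)
        = d * a * b * (a * (d * d) * a) * b * a * d := by simp only [mul_assoc]
      _ = 1 := by
        rw [d_sq, mul_one, a_sq, mul_one, mul_assoc (d * a) b b, b_sq, mul_one, mul_assoc d a a,
          a_sq, mul_one, d_sq]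
  rw [h2]
  exact map_one pair

/-- The wreath recursion `Ψ`, as an action of `G` on `Bool × G`. -/
def psi : G →* Equiv.Perm (Bool × G) :=
  PresentedGroup.toGroup (f := psiFun)
    (lift_rels _ flip_sq
      (by
        show pair (a, c) * pair (a, c) = 1
        rw [← map_mul, Prod.mk_mul_mk, a_sq, c_sq]
        exact map_one pair)
      (by
        show pair (a, d) * pair (a, d) = 1
        rw [← map_mul, Prod.mk_mul_mk, a_sq, d_sq]
        exact map_one pair)
      (by
        show pair (1, b) * pair (1, b) = 1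
        rw [← map_mul, Prod.mk_mul_mk, b_sq, mul_one]
        exact map_one pair)
      (by
        show pair (a, c) * pair (a, d) * pair (1, b) = 1
        rw [← map_mul, ← map_mul, Prod.mk_mul_mk, Prod.mk_mul_mk, a_sq, mul_one, c_mul_d, b_sq]
        exact map_one pair)
      (by
        intro n u hu
        rcases n with _ | n
        · rcases hu with rfl | rfl
          · simpa [fa, fd, psiFun] using psiFun_ad
          · simpa [fa, fd, fc, psiFun] using psiFun_adacac
        · rw [Function.iterate_succ_apply', psiFun_sigma, ← map_pow, Prod.pow_mk, thetaFun_pow,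
            ← map_pow, ← iterate_map_pow]
          rcases hu with rfl | rfl
          · rw [sigma_iter_mem]; exact map_one pair
          · rw [sigma_iter_mem']; exact map_one pair))

theorem psi_a : psi a = flip := PresentedGroup.toGroup.of _
theorem psi_b : psi b = pair (a, c) := PresentedGroup.toGroup.of _
theorem psi_c : psi c = pair (a, d) := PresentedGroup.toGroup.of _
theorem psi_d : psi d = pair (1, b) := PresentedGroup.toGroup.of _

end Pool.Agent.H4.Grig
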