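import Mathlib

/-!
# The first Grigorchuk group and geodesic words: definitions
-/

namespace Pool.Agent.H4.Grig

/-- The four letters `a, b, c, d`. -/
inductive Letter : Type
  | a | b | c | d
  deriving DecidableEq

/-- The free group on `a, b, c, d`. -/
abbrev F : Type := FreeGroup Letter

/-- The letters as elements of the free group. -/
def fa : F := FreeGroup.of Letter.a
@[inherit_doc fa] def fb : F := FreeGroup.of Letter.b
@[inherit_doc fa] def fc : F := FreeGroup.of Letter.c
@[inherit_doc fa] def fd : F := FreeGroup.of Letter.d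

/-- The endomorphism `σ` of `F` with `σ a = a c a`, `σ b = d`, `σ c = b`, `σ d = c`. -/
def sigma : F →* F := FreeGroup.lift fun
  | Letter.a => fa * fc * fa
  | Letter.b => fd
  | Letter.c => fb
  | Letter.d => fc

/-- Lysionok's relators: `a², b², c², d², bcd` and `σⁿ((ad)⁴)`, `σⁿ((adacac)⁴)` for `n ≥ 0`. -/
def rels : Set F :=
  {fa ^ 2, fb ^ 2, fc ^ 2, fd ^ 2, fb * fc * fd} ∪
    {r | ∃ n : ℕ, r = sigma^[n] ((fa * fd) ^ 4) ∨
      r = sigma^[n] ((fa * fd * fa * fc * fa * fc) ^ 4)}

/-- The first Grigorchuk group, in Lysionok's presentation. -/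
abbrev G : Type := PresentedGroup rels

/-- The generators of `G`. -/
def a : G := PresentedGroup.of Letter.a
@[inherit_doc a] def b : G := PresentedGroup.of Letter.b
@[inherit_doc a] def c : G := PresentedGroup.of Letter.c
@[inherit_doc a] def d : G := PresentedGroup.of Letter.d

/-! ### Word length and geodesic words in a group -/

section General

variable {H : Type*} [Group H]

/-- `IsWord S w`: the list `w` is a word over the alphabet `A = S ∪ S⁻¹`. -/
def IsWord (S : Set H) (w : List H) : Prop := ∀ s ∈ w, s ∈ S ∨ s⁻¹ ∈ S

/-- The word length of `g` with respect to `S`: the least length of a word over `S ∪ S⁻¹`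
whose product is `g`. -/
noncomputable def wordLength (S : Set H) (g : H) : ℕ :=
  sInf {n | ∃ w : List H, IsWord S w ∧ w.prod = g ∧ w.length = n}

/-- The set of geodesic words of length `n` over the alphabet `S ∪ S⁻¹`. -/
def geodesicWords (S : Set H) (n : ℕ) : Set (List H) :=
  {w | IsWord S w ∧ w.length = n ∧ wordLength S w.prod = n}

end General

end Pool.Agent.H4.Grig
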