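import Pool.Agent.H4.Grig.Upper

/-!
# The growth rate of geodesic words
-/

namespace Pool.Agent.H4.Grig

open scoped ENNReal Classical

/-! ### The upper bound -/

/-- The sphere of radius `n`. -/
def Sph (n : ℕ) : Set G := {g | len g = n}

theorem Sph_subset (n : ℕ) : Sph n ⊆ Bw (6 * n) := by
  intro g hg
  obtain ⟨w, hw, hl⟩ := exists_len g
  refine ⟨w, hw, (wtw_le w).trans ?_⟩
  rw [hl, show len g = n from hg]

theorem Sph_finite (n : ℕ) : (Sph n).Finite := (Bw_finite _).subset (Sph_subset n)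

theorem card_Sph_le (n : ℕ) : (Sph_finite n).toFinset.card ≤ N (6 * n) := by
  rw [← Set.ncard_eq_toFinset_card _ (Sph_finite n)]
  exact Set.ncard_le_ncard (Sph_subset n) (Bw_finite _)

theorem ncard_Geo_le (n : ℕ) :
    (Geo (n + 1)).ncard ≤ ∑ g ∈ (Sph_finite (n + 1)).toFinset, (fA n g + fQ n g) := by
  have h1 : Geo (n + 1) ⊆ ⋃ g ∈ (Sph_finite (n + 1)).toFinset, (GW Letter.a n g ∪ GQ n g) := by
    intro w hw
    simp only [Set.mem_iUnion]
    refine ⟨evw w, (Sph_finite (n + 1)).mem_toFinset.2 hw.2, ?_⟩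
    rcases w with _ | ⟨l, u⟩
    · have := hw.1
      simp at this
    · rcases l with _ | _ | _ | _
      · exact Or.inl ⟨hw, rfl, u, rfl⟩
      · exact Or.inr (Or.inl (Or.inl ⟨hw, rfl, u, rfl⟩))
      · exact Or.inr (Or.inl (Or.inr ⟨hw, rfl, u, rfl⟩))
      · exact Or.inr (Or.inr ⟨hw, rfl, u, rfl⟩)
  have hfin : (⋃ g ∈ (Sph_finite (n + 1)).toFinset, (GW Letter.a n g ∪ GQ n g)).Finite :=
    Set.Finite.biUnion (Finset.finite_toSet _) fun g _ => (GW_finite _ _ _).union (GQ_finite _ _)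
  refine (Set.ncard_le_ncard h1 hfin).trans ?_
  refine (Finset.set_ncard_biUnion_le _ _).trans ?_
  apply Finset.sum_le_sum
  intro g _
  refine (Set.ncard_union_le _ _).trans ?_
  exact Nat.add_le_add (ncard_G_le n g).1 (ncard_G_le n g).2

theorem sum_sq_le (f : G → ℕ) (s : Finset G) (B : ℕ) (h : SS f ≤ B) :
    ∑ g ∈ s, (f g : ℝ) ^ 2 ≤ B := by
  have h1 : ∑ g ∈ s, (f g : ℝ≥0∞) ^ 2 ≤ B := (ENNReal.sum_le_tsum s).trans h
  have h2 : ∑ g ∈ s, (f g) ^ 2 ≤ B := by exact_mod_cast h1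
  exact_mod_cast h2

theorem sum_pow_le (f : G → ℕ) (s : Finset G) (B : ℕ) (h : SS f ≤ B) :
    (∑ g ∈ s, (f g : ℝ)) ^ 2 ≤ s.card * B := by
  have h1 := sq_sum_le_card_mul_sum_sq (s := s) (f := fun g => (f g : ℝ))
  have h2 := sum_sq_le f s B h
  calc (∑ g ∈ s, (f g : ℝ)) ^ 2 ≤ s.card * ∑ g ∈ s, (f g : ℝ) ^ 2 := h1
    _ ≤ s.card * B := by gcongr

/-- **Upper bound** for the number of geodesic words. -/
theorem sq_ncard_Geo_le (n : ℕ) :
    ((Geo (n + 1)).ncard : ℝ) ^ 2 ≤ 36 * N (6 * (n + 1)) * 2 ^ n := by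
  obtain ⟨hA, hQ⟩ := SS_bound n
  have hA' : SS (fA n) ≤ (9 * 2 ^ n : ℕ) := by
    have : SS (fA n) ≤ 2 * SS (fA n) := by
      rw [two_mul]
      exact le_self_add
    refine (this.trans hA).trans ?_
    push_cast
    exact le_rfl
  have hQ' : SS (fQ n) ≤ (9 * 2 ^ n : ℕ) := by
    refine hQ.trans ?_
    push_cast
    exact le_rfl
  set s := (Sph_finite (n + 1)).toFinset with hs
  have h1 := sum_pow_le _ s _ hA'
  have h2 := sum_pow_le _ s _ hQ'
  have h3 : (s.card : ℝ) ≤ N (6 * (n + 1)) := by exact_mod_cast card_Sph_le (n + 1)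
  have h4 : ((Geo (n + 1)).ncard : ℝ) ≤ ∑ g ∈ s, (fA n g : ℝ) + ∑ g ∈ s, (fQ n g : ℝ) := by
    rw [← Finset.sum_add_distrib]
    exact_mod_cast ncard_Geo_le n
  have h5 : (0 : ℝ) ≤ (Geo (n + 1)).ncard := Nat.cast_nonneg _
  calc ((Geo (n + 1)).ncard : ℝ) ^ 2 ≤ (∑ g ∈ s, (fA n g : ℝ) + ∑ g ∈ s, (fQ n g : ℝ)) ^ 2 := by
        gcongr
    _ ≤ 2 * ((∑ g ∈ s, (fA n g : ℝ)) ^ 2 + (∑ g ∈ s, (fQ n g : ℝ)) ^ 2) := by
        nlinarith [sq_nonneg (∑ g ∈ s, (fA n g : ℝ) - ∑ g ∈ s, (fQ n g : ℝ))]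
    _ ≤ 2 * (s.card * (9 * 2 ^ n : ℕ) + s.card * (9 * 2 ^ n : ℕ)) := by gcongr
    _ = 36 * s.card * 2 ^ n := by push_cast; ring
    _ ≤ 36 * N (6 * (n + 1)) * 2 ^ n := by gcongr

/-! ### The growth rate -/

theorem ncard_Geo_pos (n : ℕ) : 0 < (Geo n).ncard :=
  lt_of_lt_of_le (by positivity) (two_pow_le_ncard_Geo n)

theorem log_lower (n : ℕ) (hn : 0 < n) :
    Real.log 2 / 2 - Real.log 2 / 2 * (1 / n) ≤ Real.log (Geo n).ncard / n := by
  have hn' : (0 : ℝ) < n := by exact_mod_cast hn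
  have h1 : (2 : ℝ) ^ (n / 2) ≤ (Geo n).ncard := by exact_mod_cast two_pow_le_ncard_Geo n
  have h2 : ((n / 2 : ℕ) : ℝ) * Real.log 2 ≤ Real.log (Geo n).ncard := by
    rw [← Real.log_pow]
    exact Real.log_le_log (by positivity) h1
  have h3 : ((n : ℝ) - 1) / 2 ≤ ((n / 2 : ℕ) : ℝ) := by
    have : n ≤ 2 * (n / 2) + 1 := by omega
    have h' : (n : ℝ) ≤ 2 * ((n / 2 : ℕ) : ℝ) + 1 := by exact_mod_cast this
    linarith
  have hlog : 0 < Real.log 2 := Real.log_pos (by norm_num)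
  rw [le_div_iff₀ hn']
  have h4 : (Real.log 2 / 2 - Real.log 2 / 2 * (1 / n)) * n = ((n : ℝ) - 1) / 2 * Real.log 2 := by
    field_simp
  rw [h4]
  exact (mul_le_mul_of_nonneg_right h3 hlog.le).trans h2

theorem log_upper {t : ℝ} (ht : 0 < t) : ∃ C : ℝ, ∀ n : ℕ, 0 < n →
    Real.log (Geo n).ncard / n ≤ Real.log 2 / 2 + t + C * (1 / n) := by
  obtain ⟨C, hC, h⟩ := P_all (t := t / 3) (by positivity)
  refine ⟨Real.log (36 * C) / 2, ?_⟩
  intro n hn
  obtain ⟨m, rfl⟩ : ∃ m, n = m + 1 := ⟨n - 1, by omega⟩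
  have hn' : (0 : ℝ) < ((m + 1 : ℕ) : ℝ) := by positivity
  have h1 := sq_ncard_Geo_le m
  have h2 := h (6 * (m + 1))
  have hpos : (0 : ℝ) < (Geo (m + 1)).ncard := by exact_mod_cast ncard_Geo_pos (m + 1)
  have h3 : ((Geo (m + 1)).ncard : ℝ) ^ 2 ≤
      36 * C * Real.exp (2 * t * (m + 1 : ℕ)) * 2 ^ (m + 1) := by
    calc ((Geo (m + 1)).ncard : ℝ) ^ 2 ≤ 36 * N (6 * (m + 1)) * 2 ^ m := h1
      _ ≤ 36 * (C * Real.exp (t / 3 * (6 * (m + 1) : ℕ))) * 2 ^ (m + 1) := by
          gcongr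
          · norm_num
          · omega
      _ = 36 * C * Real.exp (2 * t * (m + 1 : ℕ)) * 2 ^ (m + 1) := by
          have : t / 3 * ((6 * (m + 1) : ℕ) : ℝ) = 2 * t * ((m + 1 : ℕ) : ℝ) := by
            push_cast; ring
          rw [this]
          ring
  have h4 := Real.log_le_log (by positivity) h3
  rw [Real.log_pow, Real.log_mul (by positivity) (by positivity),
    Real.log_mul (by positivity) (by positivity), Real.log_exp, Real.log_pow] at h4
  rw [div_le_iff₀ hn']
  have h5 : (Real.log 2 / 2 + t + Real.log (36 * C) / 2 * (1 / ((m + 1 : ℕ) : ℝ))) *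
      ((m + 1 : ℕ) : ℝ) = ((m + 1 : ℕ) : ℝ) * Real.log 2 / 2 + t * ((m + 1 : ℕ) : ℝ) +
        Real.log (36 * C) / 2 := by
    field_simp
  rw [h5]
  push_cast at h4 ⊢
  linarith

theorem tendsto_log :
    Filter.Tendsto (fun n : ℕ => Real.log (Geo n).ncard / n) Filter.atTop
      (nhds (Real.log 2 / 2)) := by
  have hinv : Filter.Tendsto (fun n : ℕ => (1 : ℝ) / n) Filter.atTop (nhds 0) :=
    tendsto_one_div_atTop_nhds_zero_nat
  rw [Metric.tendsto_atTop]
  intro ε hε
  obtain ⟨C, hC⟩ := log_upper (t := ε / 2) (by positivity)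
  have h1 : Filter.Tendsto (fun n : ℕ => (|C| + Real.log 2) * ((1 : ℝ) / n)) Filter.atTop
      (nhds 0) := by
    simpa using hinv.const_mul (|C| + Real.log 2)
  have h2 := h1.eventually (gt_mem_nhds (show (0 : ℝ) < ε / 2 by positivity))
  obtain ⟨M, hM⟩ := Filter.eventually_atTop.1 h2
  refine ⟨M + 1, fun n hn => ?_⟩
  have hn0 : 0 < n := by omega
  have hn' : (0 : ℝ) < 1 / n := by positivity
  have h3 := hM n (by omega)
  have hlog : 0 < Real.log 2 := Real.log_pos (by norm_num)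
  have h4 := log_lower n hn0
  have h5 := hC n hn0
  rw [Real.dist_eq, abs_lt]
  constructor
  · have : Real.log 2 / 2 * (1 / n) ≤ (|C| + Real.log 2) * (1 / n) := by
      apply mul_le_mul_of_nonneg_right _ hn'.le
      have := abs_nonneg C
      linarith
    linarith
  · have : C * (1 / n) ≤ (|C| + Real.log 2) * (1 / n) := by
      apply mul_le_mul_of_nonneg_right _ hn'.le
      have := le_abs_self C
      linarith
    linarith

theorem tendsto_Geo :
    Filter.Tendsto (fun n : ℕ => ((Geo n).ncard : ℝ) ^ ((1 : ℝ) / n)) Filter.atTop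
      (nhds (Real.sqrt 2)) := by
  have h1 : Real.sqrt 2 = Real.exp (Real.log 2 / 2) := by
    rw [Real.sqrt_eq_rpow, Real.rpow_def_of_pos (by norm_num)]
    congr 1
    ring
  rw [h1]
  have h2 := (Real.continuous_exp.tendsto _).comp tendsto_log
  refine h2.congr fun n => ?_
  have hpos : (0 : ℝ) < (Geo n).ncard := by exact_mod_cast ncard_Geo_pos n
  rw [Function.comp_apply, Real.rpow_def_of_pos hpos]
  congr 1
  ring

/-! ### Translation to words over the alphabet `S ∪ S⁻¹` -/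

/-- The standard generating set. -/
def S : Set G := {a, b, c, d}

theorem mem_S_iff (g : G) : (g ∈ S ∨ g⁻¹ ∈ S) ↔ ∃ l, g = ev l := by
  constructor
  · rintro (h | h)
    · rcases h with rfl | rfl | rfl | rfl
      · exact ⟨Letter.a, rfl⟩
      · exact ⟨Letter.b, rfl⟩
      · exact ⟨Letter.c, rfl⟩
      · exact ⟨Letter.d, rfl⟩
    · have h' : g⁻¹ = a ∨ g⁻¹ = b ∨ g⁻¹ = c ∨ g⁻¹ = d := h
      rcases h' with h | h | h | h <;> rw [inv_eq_iff_eq_inv] at h
      · exact ⟨Letter.a, by rw [h, a_inv]; rfl⟩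
      · exact ⟨Letter.b, by rw [h, b_inv]; rfl⟩
      · exact ⟨Letter.c, by rw [h, c_inv]; rfl⟩
      · exact ⟨Letter.d, by rw [h, d_inv]; rfl⟩
  · rintro ⟨l, rfl⟩
    left
    rcases l with _ | _ | _ | _
    · exact Or.inl rfl
    · exact Or.inr (Or.inl rfl)
    · exact Or.inr (Or.inr (Or.inl rfl))
    · exact Or.inr (Or.inr (Or.inr rfl))

theorem isWord_iff (w : List G) : IsWord S w ↔ ∃ u : List Letter, u.map ev = w := by
  induction w with
  | nil => exact ⟨fun _ => ⟨[], rfl⟩, fun _ => by intro s hs; simp at hs⟩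
  | cons g w ih =>
    constructor
    · intro h
      obtain ⟨l, hl⟩ := (mem_S_iff g).1 (h g (by simp))
      obtain ⟨u, hu⟩ := ih.1 (fun s hs => h s (by simp [hs]))
      exact ⟨l :: u, by rw [List.map_cons, hu, hl]⟩
    · rintro ⟨u, hu⟩
      rcases u with _ | ⟨l, u⟩
      · simp at hu
      · rw [List.map_cons, List.cons.injEq] at hu
        intro s hs
        rcases List.mem_cons.1 hs with rfl | hs
        · exact (mem_S_iff _).2 ⟨l, hu.1.symm⟩
        · exact ih.2 ⟨u, hu.2⟩ s hs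

theorem wordLength_eq (g : G) : wordLength S g = len g := by
  unfold wordLength len
  congr 1
  ext n
  constructor
  · rintro ⟨w, hw, hprod, hlen⟩
    obtain ⟨u, rfl⟩ := (isWord_iff w).1 hw
    exact ⟨u, hprod, by simpa using hlen⟩
  · rintro ⟨u, hu, hlen⟩
    exact ⟨u.map ev, (isWord_iff _).2 ⟨u, rfl⟩, hu, by simpa using hlen⟩

theorem ev_injective : Function.Injective ev := by
  have hab : a ≠ b := by
    intro h
    have := congrArg pi h
    rw [pi_b, pi_a] at this
    exact absurd this (by decide)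
  have hac : a ≠ c := by
    intro h
    have := congrArg pi h
    rw [pi_c, pi_a] at this
    exact absurd this (by decide)
  have had : a ≠ d := by
    intro h
    have := congrArg pi h
    rw [pi_d, pi_a] at this
    exact absurd this (by decide)
  have hbc : b ≠ c := by
    intro h
    have := congrArg pi h
    rw [pi_b, pi_c] at this
    exact absurd this (by decide)
  have hbd : b ≠ d := by
    intro h
    have := congrArg pi h
    rw [pi_b, pi_d] at this
    exact absurd this (by decide)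
  have hcd : c ≠ d := by
    intro h
    have h1 : b = 1 := by rw [← c_mul_d, h, d_sq]
    exact ev_ne_one Letter.b h1
  intro l m h
  rcases l with _ | _ | _ | _ <;> rcases m with _ | _ | _ | _ <;>
    first
      | rfl
      | exact absurd h hab
      | exact absurd h hac
      | exact absurd h had
      | exact absurd h hbc
      | exact absurd h hbd
      | exact absurd h hcd
      | exact absurd h.symm hab
      | exact absurd h.symm hac
      | exact absurd h.symm had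
      | exact absurd h.symm hbc
      | exact absurd h.symm hbd
      | exact absurd h.symm hcd

theorem geodesicWords_eq (n : ℕ) : geodesicWords S n = (List.map ev) '' Geo n := by
  ext w
  constructor
  · rintro ⟨hw, hlen, hg⟩
    obtain ⟨u, rfl⟩ := (isWord_iff w).1 hw
    rw [wordLength_eq] at hg
    exact ⟨u, ⟨by simpa using hlen, hg⟩, rfl⟩
  · rintro ⟨u, ⟨hlen, hg⟩, rfl⟩
    refine ⟨(isWord_iff _).2 ⟨u, rfl⟩, by simpa using hlen, ?_⟩
    rw [wordLength_eq]
    exact hg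

theorem ncard_geodesicWords (n : ℕ) : (geodesicWords S n).ncard = (Geo n).ncard := by
  rw [geodesicWords_eq]
  exact Set.ncard_image_of_injective _ (List.map_injective_iff.2 ev_injective)

theorem main :
    Filter.Tendsto (fun n : ℕ => ((geodesicWords S n).ncard : ℝ) ^ ((1 : ℝ) / n)) Filter.atTop
      (nhds (Real.sqrt 2)) := by
  simpa only [ncard_geodesicWords] using tendsto_Geo

end Pool.Agent.H4.Grig
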