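import Pool.Agent.H4.Grig.Inj

/-!
# Subexponential growth of the Grigorchuk group
-/

namespace Pool.Agent.H4.Grig

instance : Fintype Letter := ⟨{Letter.a, Letter.b, Letter.c, Letter.d}, by
  intro x; rcases x with _ | _ | _ | _ <;> simp⟩

theorem card_letter : Fintype.card Letter = 4 := rfl

/-- The value of a word. -/
def evw (w : List Letter) : G := (w.map ev).prod

@[simp] theorem evw_nil : evw [] = 1 := rfl
@[simp] theorem evw_cons (l : Letter) (w : List Letter) : evw (l :: w) = ev l * evw w := by
  simp [evw]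
theorem evw_append (u v : List Letter) : evw (u ++ v) = evw u * evw v := by simp [evw]

theorem exists_word (g : G) : ∃ w, evw w = g := by
  refine G_induction (p := fun g => ∃ w, evw w = g) ⟨[], rfl⟩ ?_ g
  rintro l g ⟨w, rfl⟩
  exact ⟨l :: w, by simp⟩

/-! ### Sections -/

/-- The action of a letter on the first level. -/
def lact : Letter → Bool → Bool
  | Letter.a, x => !x
  | _, x => x

/-- The sections of a letter. -/
def lsec : Letter → Bool → G
  | Letter.a, _ => 1
  | Letter.b, false => a
  | Letter.b, true => c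
  | Letter.c, false => a
  | Letter.c, true => d
  | Letter.d, false => 1
  | Letter.d, true => b

theorem psi_ev (l : Letter) (x : Bool) (h : G) : psi (ev l) (x, h) = (lact l x, lsec l x * h) := by
  rcases l with _ | _ | _ | _
  · show psi a (x, h) = _
    rw [psi_a]
    simp [flip_apply, lact, lsec]
  · show psi b (x, h) = _
    rw [psi_b]
    rcases x <;> rfl
  · show psi c (x, h) = _
    rw [psi_c]
    rcases x <;> rfl
  · show psi d (x, h) = _
    rw [psi_d]
    rcases x <;> rfl

/-- The action of `g` on the first level. -/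
def act (g : G) (x : Bool) : Bool := (psi g (x, 1)).1

/-- The section of `g` at `x`. -/
def sec (g : G) (x : Bool) : G := (psi g (x, 1)).2

theorem psi_apply (g : G) (x : Bool) (h : G) : psi g (x, h) = (act g x, sec g x * h) := by
  refine G_induction (p := fun g => ∀ x h, psi g (x, h) = (act g x, sec g x * h)) ?_ ?_ g x h
  · intro x h
    simp [act, sec]
  · intro l g ih x h
    have h1 : psi (ev l * g) (x, h) = psi (ev l) (psi g (x, h)) := by
      rw [map_mul]; rfl
    have h2 : psi (ev l * g) (x, 1) = psi (ev l) (psi g (x, 1)) := by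
      rw [map_mul]; rfl
    rw [act, sec, h1, h2, ih x h, ih x 1, psi_ev, psi_ev]
    simp [mul_assoc]

theorem act_mul (g h : G) (x : Bool) : act (g * h) x = act g (act h x) := by
  have h2 : psi (g * h) (x, 1) = psi g (psi h (x, 1)) := by
    rw [map_mul]; rfl
  rw [act, h2, psi_apply h, psi_apply g]

theorem sec_mul (g h : G) (x : Bool) : sec (g * h) x = sec g (act h x) * sec h x := by
  have h2 : psi (g * h) (x, 1) = psi g (psi h (x, 1)) := by
    rw [map_mul]; rfl
  rw [sec, h2, psi_apply h, psi_apply g]
  simp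

theorem act_ev (l : Letter) (x : Bool) : act (ev l) x = lact l x := by
  rw [act, psi_ev]

theorem sec_ev (l : Letter) (x : Bool) : sec (ev l) x = lsec l x := by
  rw [sec, psi_ev, mul_one]

theorem act_one (x : Bool) : act 1 x = x := by simp [act]
theorem sec_one (x : Bool) : sec 1 x = 1 := by simp [sec]

theorem act_true (g : G) : act g true = !(act g false) := by
  refine G_induction (p := fun g => act g true = !(act g false)) ?_ ?_ g
  · simp [act_one]
  · intro l g ih
    rw [act_mul, act_mul, ih, act_ev, act_ev]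
    generalize act g false = y
    rcases l with _ | _ | _ | _ <;> rcases y <;> rfl

/-- The wreath decomposition determines the element. -/
theorem eq_of_sections {g h : G} (h0 : act g false = act h false) (h1 : sec g false = sec h false)
    (h2 : sec g true = sec h true) : g = h := by
  apply psi_injective
  apply Equiv.ext
  rintro ⟨_ | _, k⟩
  · rw [psi_apply, psi_apply, h0, h1]
  · rw [psi_apply, psi_apply, act_true, act_true, h0, h2]

/-! ### Weights -/

/-- The weights of the letters. -/
def wt : Letter → ℕ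
  | Letter.a => 5
  | Letter.b => 6
  | Letter.c => 4
  | Letter.d => 2

/-- The weight of a word. -/
def wtw (w : List Letter) : ℕ := (w.map wt).sum

@[simp] theorem wtw_nil : wtw [] = 0 := rfl
@[simp] theorem wtw_cons (l : Letter) (w : List Letter) : wtw (l :: w) = wt l + wtw w := by
  simp [wtw]
theorem wtw_append (u v : List Letter) : wtw (u ++ v) = wtw u + wtw v := by simp [wtw]

theorem length_le_wtw (w : List Letter) : w.length ≤ wtw w := by
  induction w with
  | nil => simp
  | cons l w ih =>
    have : 1 ≤ wt l := by rcases l with _ | _ | _ | _ <;> decide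
    simp only [List.length_cons, wtw_cons]
    omega

theorem wtw_le (w : List Letter) : wtw w ≤ 6 * w.length := by
  induction w with
  | nil => simp
  | cons l w ih =>
    have : wt l ≤ 6 := by rcases l with _ | _ | _ | _ <;> decide
    simp only [List.length_cons, wtw_cons]
    omega

/-- The Klein four-group `{1, b, c, d}`. -/
inductive V4 : Type
  | e | b | c | d

/-- The words of the elements of the four-group. -/
def V4.word : V4 → List Letter
  | .e => []
  | .b => [Letter.b]
  | .c => [Letter.c]
  | .d => [Letter.d]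

/-- The value of an element of the four-group in `G`. -/
def V4.val (s : V4) : G := evw s.word

/-- The product in the four-group. -/
def V4.mul : V4 → V4 → V4
  | .e, t => t
  | s, .e => s
  | .b, .b => .e
  | .b, .c => .d
  | .b, .d => .c
  | .c, .b => .d
  | .c, .c => .e
  | .c, .d => .b
  | .d, .b => .c
  | .d, .c => .b
  | .d, .d => .e

theorem V4.val_mul (s t : V4) : (s.mul t).val = s.val * t.val := by
  rcases s with _ | _ | _ | _ <;> rcases t with _ | _ | _ | _ <;>
    simp [V4.val, V4.mul, V4.word, ev, b_sq, c_sq, d_sq, b_mul_c, c_mul_b, b_mul_d, d_mul_b,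
      c_mul_d, d_mul_c]

theorem V4.wt_mul (s t : V4) : wtw (s.mul t).word ≤ wtw s.word + wtw t.word := by
  rcases s with _ | _ | _ | _ <;> rcases t with _ | _ | _ | _ <;> decide

/-- Alternating words with their weights. -/
inductive Alt : G → ℕ → Prop
  | base (s : V4) : Alt s.val (wtw s.word)
  | step (s : V4) (g : G) (r : ℕ) (h : Alt g r) : Alt (s.val * (a * g)) (wtw s.word + (5 + r))

theorem Alt.mul_left {g : G} {r : ℕ} (h : Alt g r) (s : V4) :
    ∃ r', r' ≤ wtw s.word + r ∧ Alt (s.val * g) r' := by
  cases h with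
  | base t =>
    refine ⟨wtw (s.mul t).word, V4.wt_mul s t, ?_⟩
    rw [← V4.val_mul]
    exact Alt.base _
  | step t g' r' h' =>
    refine ⟨wtw (s.mul t).word + (5 + r'), ?_, ?_⟩
    · have := V4.wt_mul s t
      omega
    · rw [← mul_assoc, ← V4.val_mul]
      exact Alt.step _ _ _ h'

theorem exists_alt (w : List Letter) : ∃ r, r ≤ wtw w ∧ Alt (evw w) r := by
  induction w with
  | nil => exact ⟨0, le_refl _, by simpa [V4.val, V4.word] using Alt.base V4.e⟩
  | cons l w ih =>
    obtain ⟨r, hr, h⟩ := ih
    rcases l with _ | _ | _ | _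
    · refine ⟨5 + r, ?_, ?_⟩
      · simp only [wtw_cons, wt]
        omega
      · have := Alt.step V4.e _ _ h
        simpa [V4.val, V4.word, ev] using this
    · obtain ⟨r', hr', h'⟩ := h.mul_left V4.b
      refine ⟨r', ?_, by simpa [V4.val, V4.word] using h'⟩
      simp only [V4.word, wtw_cons, wtw_nil] at hr' ⊢
      omega
    · obtain ⟨r', hr', h'⟩ := h.mul_left V4.c
      refine ⟨r', ?_, by simpa [V4.val, V4.word] using h'⟩
      simp only [V4.word, wtw_cons, wtw_nil] at hr' ⊢
      omega
    · obtain ⟨r', hr', h'⟩ := h.mul_left V4.d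
      refine ⟨r', ?_, by simpa [V4.val, V4.word] using h'⟩
      simp only [V4.word, wtw_cons, wtw_nil] at hr' ⊢
      omega

/-- The words of the sections of an element of the four-group. -/
def V4.sw : V4 → Bool → List Letter
  | .e, _ => []
  | .b, false => [Letter.a]
  | .b, true => [Letter.c]
  | .c, false => [Letter.a]
  | .c, true => [Letter.d]
  | .d, false => []
  | .d, true => [Letter.b]

theorem V4.sec_val (s : V4) (x : Bool) : sec s.val x = evw (s.sw x) := by
  have h : ∀ l : Letter, sec (evw [l]) x = lsec l x := fun l => by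
    rw [evw_cons, evw_nil, mul_one, sec_ev]
  rcases s with _ | _ | _ | _
  · rcases x <;> simp [V4.val, V4.word, V4.sw, sec_one]
  · show sec (evw [Letter.b]) x = _
    rw [h]
    rcases x <;> simp [V4.sw, lsec, ev]
  · show sec (evw [Letter.c]) x = _
    rw [h]
    rcases x <;> simp [V4.sw, lsec, ev]
  · show sec (evw [Letter.d]) x = _
    rw [h]
    rcases x <;> simp [V4.sw, lsec, ev]

theorem V4.act_val (s : V4) (x : Bool) : act s.val x = x := by
  rcases s with _ | _ | _ | _ <;> rcases x <;>
    simp [V4.val, V4.word, act_one, act_ev, lact]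

theorem V4.sw_le (s : V4) :
    7 * (wtw (s.sw false) + wtw (s.sw true)) ≤ 6 * (wtw s.word + 5) := by
  rcases s with _ | _ | _ | _ <;> decide

theorem V4.sw_le' (s : V4) (y : Bool) :
    7 * (wtw (s.sw y) + wtw (s.sw (!y))) ≤ 6 * (wtw s.word + 5) := by
  have := s.sw_le
  rcases y
  · exact this
  · simp only [Bool.not_true]
    omega

theorem Alt.contract {g : G} {r : ℕ} (h : Alt g r) :
    ∃ w : Bool → List Letter, (∀ x, evw (w x) = sec g x) ∧
      7 * (wtw (w false) + wtw (w true)) ≤ 6 * (r + 5) := by
  induction h with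
  | base s => exact ⟨s.sw, fun x => (s.sec_val x).symm, s.sw_le⟩
  | step s g r h ih =>
    obtain ⟨w, hw, hle⟩ := ih
    refine ⟨fun x => s.sw (act (a * g) x) ++ w x, ?_, ?_⟩
    · intro x
      have ha : sec a (act g x) = 1 := sec_ev Letter.a _
      rw [evw_append, hw, sec_mul, V4.sec_val, sec_mul a g, ha, one_mul]
    · have h1 := s.sw_le' (act (a * g) false)
      rw [← act_true] at h1
      simp only [wtw_append]
      omega

/-! ### Counting -/

/-- The ball of radius `r` in the weighted word metric. -/
def Bw (r : ℕ) : Set G := {g | ∃ w, evw w = g ∧ wtw w ≤ r}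

theorem Bw_mono {r s : ℕ} (h : r ≤ s) : Bw r ⊆ Bw s := by
  rintro g ⟨w, hw, hr⟩
  exact ⟨w, hw, hr.trans h⟩

theorem Bw_subset_range (r : ℕ) :
    Bw r ⊆ Set.range (fun f : Fin r → Option Letter => evw (List.ofFn f).reduceOption) := by
  rintro g ⟨w, rfl, hr⟩
  have hlen : w.length ≤ r := (length_le_wtw w).trans hr
  have key : ∀ (w : List Letter) (r : ℕ), w.length ≤ r →
      ∃ f : Fin r → Option Letter, (List.ofFn f).reduceOption = w := by
    intro w r hr
    have hlen' : (w.map some ++ List.replicate (r - w.length) none).length = r := by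
      simp; omega
    refine ⟨fun i => (w.map some ++ List.replicate (r - w.length) none).get (i.cast hlen'.symm), ?_⟩
    have : List.ofFn (fun i : Fin r =>
        (w.map some ++ List.replicate (r - w.length) none).get (i.cast hlen'.symm)) =
        w.map some ++ List.replicate (r - w.length) none := by
      apply List.ext_get
      · simp
        omega
      · intro n h1 h2
        simp
    rw [this, List.reduceOption_append]
    simp [List.reduceOption, List.filterMap_map]
  obtain ⟨f, hf⟩ := key w r hlen
  exact ⟨f, by simp only [hf]⟩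

theorem Bw_finite (r : ℕ) : (Bw r).Finite := (Set.finite_range _).subset (Bw_subset_range r)

/-- The number of elements of weighted length at most `r`. -/
noncomputable def N (r : ℕ) : ℕ := (Bw r).ncard

theorem N_le_pow (r : ℕ) : N r ≤ 5 ^ r := by
  have h1 : N r ≤ (Set.range (fun f : Fin r → Option Letter =>
      evw (List.ofFn f).reduceOption)).ncard :=
    Set.ncard_le_ncard (Bw_subset_range r) (Set.finite_range _)
  refine h1.trans ?_
  have h2 : (Set.range (fun f : Fin r → Option Letter =>
      evw (List.ofFn f).reduceOption)).ncard ≤ (Set.univ : Set (Fin r → Option Letter)).ncard := by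
    rw [← Set.image_univ]
    exact Set.ncard_image_le
  refine h2.trans ?_
  rw [Set.ncard_univ, Nat.card_eq_fintype_card]
  simp [card_letter]

theorem mem_Bw_contract {g : G} {r : ℕ} (h : g ∈ Bw r) :
    ∃ i j : ℕ, i + j = 6 * (r + 5) / 7 ∧ sec g false ∈ Bw i ∧ sec g true ∈ Bw j := by
  obtain ⟨w, rfl, hr⟩ := h
  obtain ⟨r', hr', halt⟩ := exists_alt w
  obtain ⟨u, hu, hle⟩ := halt.contract
  refine ⟨wtw (u false), 6 * (r + 5) / 7 - wtw (u false), by omega, ⟨u false, hu false, le_refl _⟩,
    ⟨u true, hu true, by omega⟩⟩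

theorem N_rec (r : ℕ) :
    N r ≤ 2 * ∑ i ∈ Finset.range (6 * (r + 5) / 7 + 1), N i * N (6 * (r + 5) / 7 - i) := by
  set R := 6 * (r + 5) / 7 with hR
  let T : Set (Bool × G × G) := ⋃ i ∈ Finset.range (R + 1), Set.univ ×ˢ (Bw i ×ˢ Bw (R - i))
  have hT : T.Finite := by
    apply Set.Finite.biUnion (Finset.finite_toSet _)
    intro i _
    exact Set.finite_univ.prod ((Bw_finite _).prod (Bw_finite _))
  have h1 : N r ≤ T.ncard := by
    apply Set.ncard_le_ncard_of_injOn (fun g => (act g false, sec g false, sec g true)) _ _ hT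
    · intro g hg
      obtain ⟨i, j, hij, hi, hj⟩ := mem_Bw_contract hg
      rw [← hR] at hij
      simp only [T, Set.mem_iUnion]
      refine ⟨i, Finset.mem_range.2 (by omega), ?_⟩
      have : j = R - i := by omega
      rw [this] at hj
      exact ⟨trivial, hi, hj⟩
    · intro g _ h _ hgh
      simp only [Prod.mk.injEq] at hgh
      exact eq_of_sections hgh.1 hgh.2.1 hgh.2.2
  refine h1.trans ?_
  have h2 : T.ncard ≤ ∑ i ∈ Finset.range (R + 1),
      (Set.univ ×ˢ (Bw i ×ˢ Bw (R - i)) : Set (Bool × G × G)).ncard :=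
    Finset.set_ncard_biUnion_le _ _
  refine h2.trans ?_
  rw [Finset.mul_sum]
  apply Finset.sum_le_sum
  intro i _
  rw [Set.ncard_prod, Set.ncard_prod, Set.ncard_univ]
  simp [N]

/-! ### Subexponential growth -/

/-- `N r` grows at most like `exp (t r)`. -/
def P (t : ℝ) : Prop := ∃ C : ℝ, 0 < C ∧ ∀ r : ℕ, (N r : ℝ) ≤ C * Real.exp (t * r)

theorem P_start : P (Real.log 5) := by
  refine ⟨1, one_pos, fun r => ?_⟩
  have h := N_le_pow r
  have h2 : Real.exp (Real.log 5 * r) = 5 ^ r := by
    rw [Real.exp_mul, Real.exp_log (by norm_num)]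
    exact Real.rpow_natCast _ _
  rw [one_mul, h2]
  exact_mod_cast h

theorem P_mono {s t : ℝ} (hst : s ≤ t) (h : P s) : P t := by
  obtain ⟨C, hC, h⟩ := h
  refine ⟨C, hC, fun r => (h r).trans ?_⟩
  have : s * r ≤ t * r := mul_le_mul_of_nonneg_right hst (Nat.cast_nonneg r)
  gcongr

theorem P_step {t : ℝ} (ht : 0 < t) (h : P t) : P (13 / 14 * t) := by
  obtain ⟨C, hC, h⟩ := h
  refine ⟨2 * C ^ 2 * Real.exp (30 / 7 * t) * (6 + 14 / t), by positivity, fun r => ?_⟩
  set R := 6 * (r + 5) / 7 with hR
  have hRr : (R : ℝ) ≤ 6 * (r + 5) / 7 := by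
    have : (7 * R : ℕ) ≤ 6 * (r + 5) := by omega
    have h' : (7 * (R : ℝ)) ≤ 6 * (r + 5) := by exact_mod_cast this
    linarith
  have hR6 : (R : ℝ) + 1 ≤ r + 6 := by
    have : R + 1 ≤ r + 6 := by omega
    exact_mod_cast this
  have h1 : (N r : ℝ) ≤ 2 * ∑ i ∈ Finset.range (R + 1), (N i : ℝ) * N (R - i) := by
    exact_mod_cast N_rec r
  have h2 : ∑ i ∈ Finset.range (R + 1), (N i : ℝ) * N (R - i) ≤
      ∑ i ∈ Finset.range (R + 1), C ^ 2 * Real.exp (t * R) := by
    apply Finset.sum_le_sum
    intro i hi
    have hi' : i ≤ R := by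
      have := Finset.mem_range.1 hi
      omega
    calc (N i : ℝ) * N (R - i) ≤ (C * Real.exp (t * i)) * (C * Real.exp (t * (R - i : ℕ))) :=
          mul_le_mul (h i) (h _) (Nat.cast_nonneg _) (by positivity)
      _ = C ^ 2 * (Real.exp (t * i) * Real.exp (t * (R - i : ℕ))) := by ring
      _ = C ^ 2 * Real.exp (t * R) := by
          rw [← Real.exp_add, Nat.cast_sub hi']
          congr 2
          ring
  rw [Finset.sum_const, Finset.card_range, nsmul_eq_mul] at h2
  push_cast at h2
  have h3 : (r : ℝ) + 6 ≤ (6 + 14 / t) * Real.exp (t * r / 14) := by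
    have h4 : t * r / 14 + 1 ≤ Real.exp (t * r / 14) := Real.add_one_le_exp _
    have h5 : (6 + 14 / t) * (t * r / 14 + 1) ≤ (6 + 14 / t) * Real.exp (t * r / 14) :=
      mul_le_mul_of_nonneg_left h4 (by positivity)
    have h6 : (6 + 14 / t) * (t * r / 14 + 1) = 6 * (t * r / 14) + 6 + r + 14 / t := by
      field_simp
      ring
    have h7 : 0 ≤ 6 * (t * r / 14) := by positivity
    have h8 : 0 ≤ 14 / t := by positivity
    linarith
  have h9 : Real.exp (t * R) ≤ Real.exp (30 / 7 * t) * Real.exp (6 / 7 * t * r) := by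
    rw [← Real.exp_add]
    apply Real.exp_le_exp.2
    have := mul_le_mul_of_nonneg_left hRr ht.le
    linarith
  calc (N r : ℝ) ≤ 2 * ((R + 1) * (C ^ 2 * Real.exp (t * R))) := by linarith
    _ ≤ 2 * (((6 + 14 / t) * Real.exp (t * r / 14)) *
          (C ^ 2 * (Real.exp (30 / 7 * t) * Real.exp (6 / 7 * t * r)))) := by
        gcongr
        linarith
    _ = 2 * C ^ 2 * Real.exp (30 / 7 * t) * (6 + 14 / t) *
          (Real.exp (t * r / 14) * Real.exp (6 / 7 * t * r)) := by ring
    _ = _ := by
        rw [← Real.exp_add]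
        congr 2
        ring

/-- **Subexponential growth** of the Grigorchuk group. -/
theorem P_all {t : ℝ} (ht : 0 < t) : P t := by
  have hlog : 0 < Real.log 5 := Real.log_pos (by norm_num)
  have h1 : ∀ k : ℕ, P ((13 / 14) ^ k * Real.log 5) := by
    intro k
    induction k with
    | zero => simpa using P_start
    | succ k ih =>
      have := P_step (by positivity) ih
      rwa [← mul_assoc, ← pow_succ'] at this
  obtain ⟨k, hk⟩ := exists_pow_lt_of_lt_one (div_pos ht hlog) (by norm_num : (13 / 14 : ℝ) < 1)
  refine P_mono ?_ (h1 k)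
  have := (lt_div_iff₀ hlog).1 hk
  exact this.le

end Pool.Agent.H4.Grig
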