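import Pool.Agent.H4.Grig.Alg

/-!
# The wreath recursion is injective
-/

namespace Pool.Agent.H4.Grig

/-! ### Words -/

/-- Evaluation of letters. -/
def ev : Letter → G
  | Letter.a => a
  | Letter.b => b
  | Letter.c => c
  | Letter.d => d

theorem ev_mul_self (l : Letter) : ev l * ev l = 1 := by
  rcases l with _ | _ | _ | _
  · exact a_sq
  · exact b_sq
  · exact c_sq
  · exact d_sq

theorem ev_inv (l : Letter) : (ev l)⁻¹ = ev l := inv_eq_of_mul_eq_one_left (ev_mul_self l)

theorem ev_of (l : Letter) : PresentedGroup.mk rels (FreeGroup.of l) = ev l := by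
  rcases l with _ | _ | _ | _ <;> rfl

/-- Induction on elements of `G` by left multiplication by letters. -/
theorem G_induction {p : G → Prop} (h1 : p 1) (hl : ∀ l g, p g → p (ev l * g)) (g : G) : p g := by
  obtain ⟨w, rfl⟩ := PresentedGroup.mk_surjective rels g
  have key : ∀ w : F, ∀ g, p g → p (PresentedGroup.mk rels w * g) := by
    intro w
    refine FreeGroup.induction_on w ?_ ?_ ?_ ?_
    · intro g hg
      simpa using hg
    · intro l g hg
      rw [ev_of]
      exact hl l g hg
    · intro l _ g hg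
      rw [map_inv, ev_of, ev_inv]
      exact hl l g hg
    · intro u v hu hv g hg
      rw [map_mul, mul_assoc]
      exact hu _ (hv _ hg)
  simpa using key w 1 h1

/-! ### The normal closure of `b` -/

/-- The subgroup generated by four conjugates of `b`; it is the normal closure of `b`. -/
def B : Subgroup G := Subgroup.closure {b, a * b * a, d * (a * b * a) * d, a * (d * (a * b * a) * d) * a}

theorem b_mem_B : b ∈ B := Subgroup.subset_closure (by simp)

theorem conj_mem_of {l : G} (hl : l * l = 1)
    (h : ∀ x ∈ ({b, a * b * a, d * (a * b * a) * d, a * (d * (a * b * a) * d) * a} : Set G),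
      l * x * l ∈ B) {x : G} (hx : x ∈ B) : l * x * l ∈ B := by
  have hl' : l⁻¹ = l := inv_eq_of_mul_eq_one_left hl
  have h1 : B ≤ B.comap (MulAut.conj l).toMonoidHom := by
    unfold B
    rw [Subgroup.closure_le]
    intro x hx
    show (MulAut.conj l) x ∈ B
    rw [MulAut.conj_apply, hl']
    exact h x hx
  have h2 := h1 hx
  have h3 : (MulAut.conj l) x ∈ B := h2
  rw [MulAut.conj_apply, hl'] at h3
  exact h3

theorem a_conj_a (x : G) : a * (a * x * a) * a = x := by
  calc a * (a * x * a) * a = (a * a) * x * (a * a) := by simp only [mul_assoc]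
    _ = x := by rw [a_sq, one_mul, mul_one]

theorem d_conj_d (x : G) : d * (d * x * d) * d = x := by
  calc d * (d * x * d) * d = (d * d) * x * (d * d) := by simp only [mul_assoc]
    _ = x := by rw [d_sq, one_mul, mul_one]

theorem d_conj_b : d * b * d = b := by rw [d_mul_b, c_mul_d]

theorem adad_comm : d * a * d * a = a * d * a * d := by
  have h := ad_pow
  have h1 : (a * d * a * d) * (a * d * a * d) = 1 := by
    rw [← h]
    simp only [pow_succ, pow_zero, one_mul, mul_assoc]
  have h2 : (a * d * a * d)⁻¹ = d * a * d * a := by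
    simp only [mul_inv_rev, a_inv, d_inv, mul_assoc]
  rw [← h2]
  exact inv_eq_of_mul_eq_one_left h1

theorem B_conj_a {x : G} (hx : x ∈ B) : a * x * a ∈ B := by
  refine conj_mem_of a_sq ?_ hx
  intro x hx
  simp only [Set.mem_insert_iff, Set.mem_singleton_iff] at hx
  rcases hx with rfl | rfl | rfl | rfl
  · exact Subgroup.subset_closure (by simp)
  · rw [a_conj_a]; exact Subgroup.subset_closure (by simp)
  · exact Subgroup.subset_closure (by simp)
  · rw [a_conj_a]; exact Subgroup.subset_closure (by simp)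

theorem B_conj_d {x : G} (hx : x ∈ B) : d * x * d ∈ B := by
  refine conj_mem_of d_sq ?_ hx
  intro x hx
  simp only [Set.mem_insert_iff, Set.mem_singleton_iff] at hx
  rcases hx with rfl | rfl | rfl | rfl
  · rw [d_conj_b]; exact b_mem_B
  · exact Subgroup.subset_closure (by simp)
  · rw [d_conj_d]; exact Subgroup.subset_closure (by simp)
  · have h : d * (a * (d * (a * b * a) * d) * a) * d = a * (d * (a * b * a) * d) * a := by
      calc d * (a * (d * (a * b * a) * d) * a) * d
          = (d * a * d * a) * b * (a * d * a * d) := by simp only [mul_assoc]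
        _ = (a * d * a * d) * b * (d * a * d * a) := by rw [adad_comm]
        _ = a * d * a * (d * b * d) * a * d * a := by simp only [mul_assoc]
        _ = a * (d * (a * b * a) * d) * a := by rw [d_conj_b]; simp only [mul_assoc]
    rw [h]
    exact Subgroup.subset_closure (by simp)

theorem B_conj_b {x : G} (hx : x ∈ B) : b * x * b ∈ B :=
  B.mul_mem (B.mul_mem b_mem_B hx) b_mem_B

theorem B_conj_c {x : G} (hx : x ∈ B) : c * x * c ∈ B := by
  have h : c * x * c = b * (d * x * d) * b := by
    rw [← b_mul_d]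
    nth_rw 2 [b_mul_d]
    rw [← d_mul_b]
    simp only [mul_assoc]
  rw [h]
  exact B_conj_b (B_conj_d hx)

theorem theta_of_mem_B {x : G} (hx : x ∈ B) : theta x = 1 := by
  have h : B ≤ theta.ker := by
    unfold B
    rw [Subgroup.closure_le]
    intro x hx
    simp only [Set.mem_insert_iff, Set.mem_singleton_iff] at hx
    show theta x = 1
    rcases hx with rfl | rfl | rfl | rfl <;> simp [theta_a, theta_b, theta_d, a_sq, d_sq]
  exact h hx

theorem pi_of_mem_B {x : G} (hx : x ∈ B) : pi x = 1 := by
  have h : B ≤ pi.ker := by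
    unfold B
    rw [Subgroup.closure_le]
    intro x hx
    simp only [Set.mem_insert_iff, Set.mem_singleton_iff] at hx
    show pi x = 1
    rcases hx with rfl | rfl | rfl | rfl <;>
      simp only [map_mul, pi_a, pi_b, pi_d] <;> decide
  exact h hx

/-! ### The commutation relations -/

theorem aca_sq : (a * c * a) * (a * c * a) = 1 := by
  calc (a * c * a) * (a * c * a) = a * c * (a * a) * c * a := by simp only [mul_assoc]
    _ = 1 := by rw [a_sq, mul_one, mul_assoc a, c_sq, mul_one, a_sq]

theorem aca_inv : (a * c * a)⁻¹ = a * c * a := inv_eq_of_mul_eq_one_left aca_sq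

/-- The rotation `R = c · aca`. -/
def R : G := c * (a * c * a)

theorem R_inv : R⁻¹ = (a * c * a) * c := by
  rw [R, mul_inv_rev, aca_inv, c_inv]

theorem R_pow : R ^ 4 = 1 := by
  have h : R = a * (a * c * a * c) * a := by
    rw [R]
    calc c * (a * c * a) = (a * a) * c * (a * c * a) := by rw [a_sq, one_mul]
      _ = a * (a * c * a * c) * a := by simp only [mul_assoc]
  have h2 : a * (a * c * a * c) * a = a * (a * c * a * c) * a⁻¹ := by rw [a_inv]
  rw [h, h2, conj_pow, acac_pow]
  simp

theorem c_conj_d : c * d * c = d := by rw [c_mul_d, b_mul_c]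

theorem c_R_c : c * R * c = R⁻¹ := by
  rw [R_inv, R]
  calc c * (c * (a * c * a)) * c = (c * c) * (a * c * a) * c := by simp only [mul_assoc]
    _ = _ := by rw [c_sq, one_mul]

/-- The element `ada`. -/
def e : G := a * d * a

theorem commute_d_e : Commute d e := by
  show d * e = e * d
  have := adad_comm
  rw [e]
  simpa only [mul_assoc] using this

theorem aca_conj_e : (a * c * a) * e * (a * c * a) = e := by
  rw [e]
  calc (a * c * a) * (a * d * a) * (a * c * a)
      = a * c * (a * a) * d * (a * a) * c * a := by simp only [mul_assoc]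
    _ = a * (c * d * c) * a := by rw [a_sq, mul_one]; simp only [mul_assoc, mul_one]
    _ = _ := by rw [c_conj_d]

theorem R_conj_e : R * e * R⁻¹ = c * e * c := by
  rw [R_inv, R]
  calc c * (a * c * a) * e * (a * c * a * c) = c * ((a * c * a) * e * (a * c * a)) * c := by
        simp only [mul_assoc]
    _ = _ := by rw [aca_conj_e]

theorem commute_c {x y : G} : Commute (c * x * c) (c * y * c) ↔ Commute x y := by
  have h := Commute.conj_iff (a := x) (b := y) c
  rwa [c_inv] at h

theorem commute_one : Commute d (R * e * R⁻¹) := by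
  rw [R_conj_e, ← c_conj_d, commute_c]
  exact commute_d_e

theorem commute_neg_one : Commute d (R⁻¹ * e * R) := by
  have h := adacac_pow
  have h1 : (a * d * a * c * a * c) ^ 2 = e * (R * d * R⁻¹) := by
    rw [sq, R_inv, R, e]
    calc a * d * a * c * a * c * (a * d * a * c * a * c)
        = a * d * a * c * a * c * a * d * a * c * a * c := by simp only [mul_assoc]
      _ = _ := by simp only [mul_assoc]
  have h2 : (e * (R * d * R⁻¹)) * (e * (R * d * R⁻¹)) = 1 := by
    rw [← h1, ← sq, ← pow_mul]
    exact h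
  have he : e⁻¹ = e := by
    rw [e, mul_inv_rev, mul_inv_rev, a_inv, d_inv, mul_assoc]
  have hd : (R * d * R⁻¹)⁻¹ = R * d * R⁻¹ := by
    rw [mul_inv_rev, mul_inv_rev, d_inv, inv_inv, mul_assoc]
  have h3 : Commute e (R * d * R⁻¹) := by
    show e * (R * d * R⁻¹) = R * d * R⁻¹ * e
    have h4 : (e * (R * d * R⁻¹))⁻¹ = R * d * R⁻¹ * e := by rw [mul_inv_rev, he, hd]
    rw [← h4]
    exact (inv_eq_of_mul_eq_one_left h2).symm
  have h5 := (Commute.conj_iff (a := e) (b := R * d * R⁻¹) R⁻¹).2 h3
  have h6 : R⁻¹ * (R * d * R⁻¹) * (R⁻¹)⁻¹ = d := by group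
  rw [h6, inv_inv] at h5
  exact h5.symm

theorem commute_two : Commute d (R ^ 2 * e * (R ^ 2)⁻¹) := by
  have h := commute_neg_one
  rw [← commute_c, c_conj_d] at h
  have h2 : c * (R⁻¹ * e * R) * c = R ^ 2 * e * (R ^ 2)⁻¹ := by
    have e1 : c * R⁻¹ * c = R := by
      rw [← c_R_c]
      calc c * (c * R * c) * c = (c * c) * R * (c * c) := by simp only [mul_assoc]
        _ = R := by rw [c_sq, one_mul, mul_one]
    calc c * (R⁻¹ * e * R) * c = (c * R⁻¹ * (c * c)) * e * ((c * c) * R * c) := by
          rw [c_sq]; simp only [mul_assoc, one_mul]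
      _ = (c * R⁻¹ * c) * (c * e * c) * (c * R * c) := by simp only [mul_assoc]
      _ = R * (R * e * R⁻¹) * R⁻¹ := by rw [e1, c_R_c, R_conj_e]
      _ = _ := by rw [sq, mul_inv_rev]; simp only [mul_assoc]
  rwa [h2] at h

theorem commute_all (k : ℤ) : Commute d (R ^ k * e * (R ^ k)⁻¹) := by
  have h1 : R ^ k = R ^ (k % 4) := by
    conv_lhs => rw [← Int.emod_add_mul_ediv k 4]
    rw [zpow_add, zpow_mul]
    have : R ^ (4 : ℤ) = 1 := by
      have := R_pow
      exact_mod_cast this
    rw [this, one_zpow, mul_one]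
  rw [h1]
  have h2 : 0 ≤ k % 4 := Int.emod_nonneg _ (by norm_num)
  have h3 : k % 4 < 4 := Int.emod_lt_of_pos _ (by norm_num)
  have h4 : R ^ (3 : ℤ) = R⁻¹ := by
    rw [eq_inv_iff_mul_eq_one, ← zpow_add_one]
    have := R_pow
    exact_mod_cast this
  generalize k % 4 = m at h2 h3
  interval_cases m
  · simpa using commute_d_e
  · simpa using commute_one
  · have := commute_two
    exact_mod_cast this
  · rw [h4, inv_inv]
    exact commute_neg_one

theorem commute_gen (i j : ℤ) : Commute (R ^ i * d * (R ^ i)⁻¹) (R ^ j * e * (R ^ j)⁻¹) := by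
  have h := (Commute.conj_iff (a := d) (b := R ^ (j - i) * e * (R ^ (j - i))⁻¹) (R ^ i)).2
    (commute_all (j - i))
  have h2 : R ^ i * (R ^ (j - i) * e * (R ^ (j - i))⁻¹) * (R ^ i)⁻¹ = R ^ j * e * (R ^ j)⁻¹ := by
    have : R ^ j = R ^ i * R ^ (j - i) := by rw [← zpow_add]; congr 1; ring
    rw [this, mul_inv_rev]
    simp only [mul_assoc]
  rwa [h2] at h

theorem sig_gen {x : G}
    (hx : x ∈ ({b, a * b * a, d * (a * b * a) * d, a * (d * (a * b * a) * d) * a} : Set G)) :
    ∃ i : ℤ, sig x = R ^ i * d * (R ^ i)⁻¹ := by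
  have h1 : (a * c * a) * d * (a * c * a) = R⁻¹ * d * R := by
    rw [R_inv, R]
    calc (a * c * a) * d * (a * c * a) = (a * c * a) * (c * d * c) * (a * c * a) := by
          rw [c_conj_d]
      _ = _ := by simp only [mul_assoc]
  have hcRc : c * (R⁻¹ * d * R) * c = R * d * R⁻¹ := by
    rw [← h1]
    rw [R_inv, R]
    simp only [mul_assoc]
  simp only [Set.mem_insert_iff, Set.mem_singleton_iff] at hx
  rcases hx with rfl | rfl | rfl | rfl
  · exact ⟨0, by simp [sig_b]⟩
  · refine ⟨-1, ?_⟩
    rw [map_mul, map_mul, sig_a, sig_b, h1]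
    simp
  · refine ⟨1, ?_⟩
    rw [map_mul, map_mul, map_mul, map_mul, sig_a, sig_b, sig_d, h1, hcRc]
    simp
  · refine ⟨-2, ?_⟩
    simp only [map_mul]
    rw [sig_a, sig_b, sig_d, h1, hcRc]
    have h2 : (a * c * a) * (R * d * R⁻¹) * (a * c * a) = R⁻¹ * (R⁻¹ * d * R) * R := by
      rw [← hcRc]
      have e1 : (a * c * a) * c = R⁻¹ := R_inv.symm
      have e2 : c * (a * c * a) = R := rfl
      calc (a * c * a) * (c * (R⁻¹ * d * R) * c) * (a * c * a)
          = ((a * c * a) * c) * (R⁻¹ * d * R) * (c * (a * c * a)) := by simp only [mul_assoc]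
        _ = _ := by rw [e1, e2]
    rw [h2, zpow_neg, inv_inv, zpow_two, mul_inv_rev]
    simp only [mul_assoc]

theorem a_sig_gen {x : G}
    (hx : x ∈ ({b, a * b * a, d * (a * b * a) * d, a * (d * (a * b * a) * d) * a} : Set G)) :
    ∃ i : ℤ, a * sig x * a = R ^ i * e * (R ^ i)⁻¹ := by
  obtain ⟨i, hi⟩ := sig_gen hx
  refine ⟨-i, ?_⟩
  have h1 : a * R * a = R⁻¹ := by
    rw [R_inv, R]
    calc a * (c * (a * c * a)) * a = a * c * a * (c * (a * a)) := by simp only [mul_assoc]
      _ = _ := by rw [a_sq, mul_one]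
  have h2 : a * R ^ i * a = R ^ (-i) := by
    have h3 : a * R ^ i * a⁻¹ = (a * R * a⁻¹) ^ i := by rw [conj_zpow]
    rw [a_inv, h1] at h3
    rw [h3, inv_zpow, zpow_neg]
  have h4 : a * (R ^ i)⁻¹ * a = (R ^ (-i))⁻¹ := by
    rw [← h2]
    simp only [mul_inv_rev, a_inv, mul_assoc]
  rw [hi, ← h4, ← h2, e]
  calc a * (R ^ i * d * (R ^ i)⁻¹) * a
      = a * R ^ i * (a * a) * d * (a * a) * (R ^ i)⁻¹ * a := by
        rw [a_sq]; simp only [mul_assoc, one_mul]
    _ = _ := by simp only [mul_assoc]

theorem commute_sig {x y : G} (hx : x ∈ B) (hy : y ∈ B) : Commute (sig x) (a * sig y * a) := by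
  unfold B at hx hy
  induction hx using Subgroup.closure_induction with
  | mem x hx =>
    induction hy using Subgroup.closure_induction with
    | mem y hy =>
      obtain ⟨i, hi⟩ := sig_gen hx
      obtain ⟨j, hj⟩ := a_sig_gen hy
      rw [hi, hj]
      exact commute_gen i j
    | one => simp [a_sq]
    | mul y z _ _ hy hz =>
      have : a * sig (y * z) * a = (a * sig y * a) * (a * sig z * a) := by
        rw [map_mul]
        calc a * (sig y * sig z) * a = a * sig y * 1 * sig z * a := by simp only [mul_assoc, one_mul]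
          _ = _ := by rw [← a_sq]; simp only [mul_assoc]
      rw [this]
      exact hy.mul_right hz
    | inv y _ hy =>
      have : a * sig y⁻¹ * a = (a * sig y * a)⁻¹ := by
        rw [map_inv, mul_inv_rev, mul_inv_rev, a_inv, mul_assoc]
      rw [this]
      exact hy.inv_right
  | one => simp
  | mul x z _ _ hx hz => rw [map_mul]; exact hx.mul_left hz
  | inv x _ hx => rw [map_inv]; exact hx.inv_left

/-! ### The decomposition of the stabiliser -/

/-- The elements `σ(β₁) · aσ(β₀)a · v`. -/
def InH (g : G) : Prop :=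
  ∃ x ∈ B, ∃ y ∈ B, ∃ v ∈ Subgroup.closure ({c, a * c * a} : Set G),
    g = sig x * (a * sig y * a) * v

theorem InH_one : InH 1 :=
  ⟨1, B.one_mem, 1, B.one_mem, 1, Subgroup.one_mem _, by simp [a_sq]⟩

theorem InH_d {g : G} (h : InH g) : InH (d * g) := by
  obtain ⟨x, hx, y, hy, v, hv, rfl⟩ := h
  refine ⟨b * x, B.mul_mem b_mem_B hx, y, hy, v, hv, ?_⟩
  rw [map_mul, sig_b]
  simp only [mul_assoc]

theorem InH_c {g : G} (h : InH g) : InH (c * g) := by
  obtain ⟨x, hx, y, hy, v, hv, rfl⟩ := h
  refine ⟨d * x * d, B_conj_d hx, a * y * a, B_conj_a hy, c * v,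
    Subgroup.mul_mem _ (Subgroup.subset_closure (by simp)) hv, ?_⟩
  simp only [map_mul, sig_d, sig_a]
  calc c * (sig x * (a * sig y * a) * v)
      = c * sig x * 1 * (a * sig y * a) * 1 * v := by simp only [mul_assoc, one_mul]
    _ = c * sig x * (c * c) * (a * sig y * a) * (c * c) * v := by rw [c_sq]
    _ = c * sig x * c * ((a * a) * c * a * sig y * a * c * (a * a)) * (c * v) := by
        rw [a_sq]; simp only [mul_assoc, one_mul]
    _ = _ := by simp only [mul_assoc]

theorem InH_aca {g : G} (h : InH g) : InH ((a * c * a) * g) := by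
  obtain ⟨x, hx, y, hy, v, hv, rfl⟩ := h
  refine ⟨a * x * a, B_conj_a hx, d * y * d, B_conj_d hy, (a * c * a) * v,
    Subgroup.mul_mem _ (Subgroup.subset_closure (by simp)) hv, ?_⟩
  simp only [map_mul, sig_d, sig_a]
  calc (a * c * a) * (sig x * (a * sig y * a) * v)
      = (a * c * a) * sig x * 1 * a * sig y * a * 1 * v := by simp only [mul_assoc, one_mul]
    _ = (a * c * a) * sig x * ((a * c * a) * (a * c * a)) * a * sig y * a *
          ((a * c * a) * (a * c * a)) * v := by rw [aca_sq]
    _ = (a * c * a) * sig x * (a * c * a) * (a * c * (a * a) * sig y * (a * a) * c * a) *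
          ((a * c * a) * v) := by simp only [mul_assoc]
    _ = _ := by rw [a_sq]; simp only [mul_assoc, mul_one, one_mul]

theorem InH_b {g : G} (h : InH g) : InH (b * g) := by
  rw [← c_mul_d, mul_assoc]
  exact InH_c (InH_d h)

theorem InH_ada {g : G} (h : InH g) : InH ((a * d * a) * g) := by
  obtain ⟨x, hx, y, hy, v, hv, rfl⟩ := h
  refine ⟨x, hx, b * y, B.mul_mem b_mem_B hy, v, hv, ?_⟩
  have h1 : Commute (sig x) (a * sig b * a) := commute_sig hx b_mem_B
  rw [sig_b] at h1
  rw [map_mul, sig_b]
  calc a * d * a * (sig x * (a * sig y * a) * v)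
      = ((a * d * a) * sig x) * (a * sig y * a) * v := by simp only [mul_assoc]
    _ = (sig x * (a * d * a)) * (a * sig y * a) * v := by rw [h1.eq]
    _ = sig x * (a * d * (a * a) * sig y * a) * v := by simp only [mul_assoc]
    _ = _ := by rw [a_sq]; simp only [mul_assoc, one_mul]

theorem InH_aba {g : G} (h : InH g) : InH ((a * b * a) * g) := by
  have : a * b * a = (a * c * a) * (a * d * a) := by
    calc a * b * a = a * (c * 1 * d) * a := by rw [mul_one, c_mul_d]
      _ = _ := by rw [← a_sq]; simp only [mul_assoc]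
  rw [this, mul_assoc]
  exact InH_aca (InH_ada h)

theorem InH_or (g : G) : InH g ∨ InH (a * g) := by
  have aag : ∀ g : G, a * (a * g) = g := fun g => by rw [← mul_assoc, a_sq, one_mul]
  have conj : ∀ l g : G, a * (l * g) = (a * l * a) * (a * g) := fun l g => by
    rw [mul_assoc (a * l) a, aag, mul_assoc]
  refine G_induction (p := fun g => InH g ∨ InH (a * g)) (Or.inl InH_one) ?_ g
  rintro (_ | _ | _ | _) g hg
  · rcases hg with hg | hg
    · right
      show InH (a * (a * g))
      rwa [aag]
    · left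
      exact hg
  · rcases hg with hg | hg
    · exact Or.inl (InH_b hg)
    · right
      show InH (a * (b * g))
      rw [conj]
      exact InH_aba hg
  · rcases hg with hg | hg
    · exact Or.inl (InH_c hg)
    · right
      show InH (a * (c * g))
      rw [conj]
      exact InH_aca hg
  · rcases hg with hg | hg
    · exact Or.inl (InH_d hg)
    · right
      show InH (a * (d * g))
      rw [conj]
      exact InH_ada hg

theorem psi_sig (g : G) : psi (sig g) = pair (theta g, g) := by
  have h : psi.comp sig = pair.comp (theta.prod (MonoidHom.id G)) := by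
    ext1 l
    have hl : PresentedGroup.of (rels := rels) l = ev l := ev_of l
    rw [hl]
    rcases l with _ | _ | _ | _
    · show psi (sig a) = pair (theta a, a)
      rw [sig_a, map_mul, map_mul, psi_a, psi_c, flip_pair_flip, theta_a]
    · show psi (sig b) = pair (theta b, b)
      rw [sig_b, psi_d, theta_b]
    · show psi (sig c) = pair (theta c, c)
      rw [sig_c, psi_b, theta_c]
    · show psi (sig d) = pair (theta d, d)
      rw [sig_d, psi_c, theta_d]
  exact DFunLike.congr_fun h g

theorem psi_R (k : ℤ) : psi (R ^ k) = pair ((a * d) ^ k, (d * a) ^ k) := by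
  have h : psi R = pair (a * d, d * a) := by
    rw [R, map_mul, map_mul, map_mul, psi_a, psi_c, flip_pair_flip, ← map_mul, Prod.mk_mul_mk]
  rw [map_zpow, h, ← map_zpow]
  rfl

theorem pair_eq_one {p : G × G} (h : pair p = 1) : p = 1 := by
  have h1 := congrArg (fun f : Equiv.Perm (Bool × G) => (f (false, 1)).2) h
  have h2 := congrArg (fun f : Equiv.Perm (Bool × G) => (f (true, 1)).2) h
  simp only [pair_false, pair_true, Equiv.Perm.coe_one, id_eq, mul_one] at h1 h2
  exact Prod.ext h1 h2

theorem pi_ad_zpow {k : ℤ} (h : pi ((a * d) ^ k) = 1) : k % 4 = 0 := by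
  rw [map_zpow, map_mul, pi_a, pi_d] at h
  set s : Equiv.Perm (Fin 4) := Equiv.swap 0 1 * Equiv.swap 2 3 * Equiv.swap 1 3 with hs
  have h4 : s ^ (4 : ℤ) = 1 := by rw [hs]; decide
  have h1 : s ^ k = s ^ (k % 4) := by
    conv_lhs => rw [← Int.emod_add_mul_ediv k 4]
    rw [zpow_add, zpow_mul, h4, one_zpow, mul_one]
  rw [h1] at h
  have h2 : 0 ≤ k % 4 := Int.emod_nonneg _ (by norm_num)
  have h3 : k % 4 < 4 := Int.emod_lt_of_pos _ (by norm_num)
  generalize k % 4 = m at h h2 h3
  interval_cases m
  · rfl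
  · exact absurd h (by rw [hs]; decide)
  · exact absurd h (by rw [hs]; decide)
  · exact absurd h (by rw [hs]; decide)

theorem pi_ad_zpow_a {k : ℤ} (h : pi ((a * d) ^ k * a) = 1) : False := by
  rw [map_mul, map_zpow, map_mul, pi_a, pi_d] at h
  set s : Equiv.Perm (Fin 4) := Equiv.swap 0 1 * Equiv.swap 2 3 * Equiv.swap 1 3 with hs
  have h4 : s ^ (4 : ℤ) = 1 := by rw [hs]; decide
  have h1 : s ^ k = s ^ (k % 4) := by
    conv_lhs => rw [← Int.emod_add_mul_ediv k 4]
    rw [zpow_add, zpow_mul, h4, one_zpow, mul_one]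
  rw [h1] at h
  have h2 : 0 ≤ k % 4 := Int.emod_nonneg _ (by norm_num)
  have h3 : k % 4 < 4 := Int.emod_lt_of_pos _ (by norm_num)
  generalize k % 4 = m at h h2 h3
  interval_cases m
  · exact absurd h (by decide)
  · exact absurd h (by rw [hs]; decide)
  · exact absurd h (by rw [hs]; decide)
  · exact absurd h (by rw [hs]; decide)

theorem psi_InH {g : G} (h : InH g) : ∃ p : G × G, psi g = pair p := by
  obtain ⟨x, hx, y, hy, v, hv, rfl⟩ := h
  have hc : c ^ 2 = 1 := by rw [sq, c_sq]
  have haca : (a * c * a) ^ 2 = 1 := by rw [sq, aca_sq]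
  have h1 : psi (sig x * (a * sig y * a)) = pair (y, x) := by
    rw [map_mul, map_mul, map_mul, psi_sig, psi_sig, psi_a, flip_pair_flip, theta_of_mem_B hx,
      theta_of_mem_B hy, ← map_mul, Prod.mk_mul_mk, one_mul, mul_one]
  obtain ⟨k, hk | hk⟩ := mem_closure_pair_cases hc haca hv
  · have hk' : v = R ^ k := hk
    rw [map_mul, h1, hk', psi_R, ← map_mul]
    exact ⟨_, rfl⟩
  · have hk' : v = R ^ k * c := hk
    rw [map_mul, h1, hk', map_mul, psi_R, psi_c, ← map_mul, ← map_mul]
    exact ⟨_, rfl⟩

theorem eq_one_of_InH {g : G} (h : InH g) (hg : psi g = 1) : g = 1 := by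
  obtain ⟨x, hx, y, hy, v, hv, rfl⟩ := h
  have hc : c ^ 2 = 1 := by rw [sq, c_sq]
  have haca : (a * c * a) ^ 2 = 1 := by rw [sq, aca_sq]
  have h1 : psi (sig x * (a * sig y * a)) = pair (y, x) := by
    rw [map_mul, map_mul, map_mul, psi_sig, psi_sig, psi_a, flip_pair_flip, theta_of_mem_B hx,
      theta_of_mem_B hy, ← map_mul, Prod.mk_mul_mk, one_mul, mul_one]
  obtain ⟨k, hk | hk⟩ := mem_closure_pair_cases hc haca hv
  · have hk' : v = R ^ k := hk
    rw [map_mul, h1, hk', psi_R, ← map_mul, Prod.mk_mul_mk] at hg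
    have h2 := pair_eq_one hg
    have h3 : y * (a * d) ^ k = 1 := congrArg Prod.fst h2
    have h4 : x * (d * a) ^ k = 1 := congrArg Prod.snd h2
    have h5 : pi ((a * d) ^ k) = 1 := by
      have := congrArg pi h3
      rwa [map_mul, pi_of_mem_B hy, one_mul, map_one] at this
    have h6 := pi_ad_zpow h5
    have h7 : ∃ m : ℤ, k = 4 * m := ⟨k / 4, by omega⟩
    obtain ⟨m, rfl⟩ := h7
    have had : (a * d) ^ (4 : ℤ) = 1 := by exact_mod_cast ad_pow
    have hda : (d * a) ^ (4 : ℤ) = 1 := by
      have : d * a = (a * d)⁻¹ := by rw [mul_inv_rev, a_inv, d_inv]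
      rw [this, inv_zpow, had, inv_one]
    have hR : R ^ (4 : ℤ) = 1 := by exact_mod_cast R_pow
    rw [zpow_mul, had, one_zpow, mul_one] at h3
    rw [zpow_mul, hda, one_zpow, mul_one] at h4
    rw [hk', zpow_mul, hR, one_zpow, h3, h4]
    simp [a_sq]
  · exfalso
    have hk' : v = R ^ k * c := hk
    rw [map_mul, h1, hk', map_mul, psi_R, psi_c, ← map_mul, ← map_mul, Prod.mk_mul_mk,
      Prod.mk_mul_mk] at hg
    have h2 := pair_eq_one hg
    have h3 : y * ((a * d) ^ k * a) = 1 := congrArg Prod.fst h2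
    have h5 : pi ((a * d) ^ k * a) = 1 := by
      have := congrArg pi h3
      rwa [map_mul, pi_of_mem_B hy, one_mul, map_one] at this
    exact pi_ad_zpow_a h5

/-- **The wreath recursion is injective** on the group given by Lysionok's presentation. -/
theorem psi_injective : Function.Injective psi := by
  rw [injective_iff_map_eq_one]
  intro g hg
  rcases InH_or g with h | h
  · exact eq_one_of_InH h hg
  · exfalso
    obtain ⟨p, hp⟩ := psi_InH h
    rw [map_mul, hg, mul_one, psi_a] at hp
    have := congrArg (fun f : Equiv.Perm (Bool × G) => (f (false, 1)).1) hp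
    simp [flip_apply, pair_false] at this

end Pool.Agent.H4.Grig
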