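import Pool.Agent.H4.Grig.Growth

/-!
# Word length, and the lower bound for the number of geodesic words
-/

namespace Pool.Agent.H4.Grig

/-! ### Word length -/

/-- The word length of `g` with respect to `{a, b, c, d}`, via words in letters. -/
noncomputable def len (g : G) : ℕ := sInf {n | ∃ w : List Letter, evw w = g ∧ w.length = n}

theorem len_set_nonempty (g : G) :
    {n | ∃ w : List Letter, evw w = g ∧ w.length = n}.Nonempty := by
  obtain ⟨w, hw⟩ := exists_word g
  exact ⟨w.length, w, hw, rfl⟩

theorem exists_len (g : G) : ∃ w : List Letter, evw w = g ∧ w.length = len g :=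
  Nat.sInf_mem (len_set_nonempty g)

theorem len_le {w : List Letter} {g : G} (h : evw w = g) : len g ≤ w.length :=
  Nat.sInf_le ⟨w, h, rfl⟩

theorem len_evw_le (w : List Letter) : len (evw w) ≤ w.length := len_le rfl

theorem len_one : len 1 = 0 := by
  have := len_evw_le []
  simpa using this

theorem len_mul_le (l : Letter) (g : G) : len (ev l * g) ≤ len g + 1 := by
  obtain ⟨w, hw, hl⟩ := exists_len g
  have := len_evw_le (l :: w)
  rw [evw_cons, hw, List.length_cons, hl] at this
  exact this

theorem len_le_mul (l : Letter) (g : G) : len g ≤ len (ev l * g) + 1 := by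
  have := len_mul_le l (ev l * g)
  rwa [← mul_assoc, ev_mul_self, one_mul] at this

/-- The geodesic words of length `n`. -/
def Geo (n : ℕ) : Set (List Letter) := {w | w.length = n ∧ len (evw w) = n}

theorem Geo_finite (n : ℕ) : (Geo n).Finite := by
  apply (List.finite_length_eq Letter n).subset
  intro w hw
  exact hw.1

/-- Suffixes of geodesic words are geodesic. -/
theorem Geo_tail {l : Letter} {w : List Letter} {n : ℕ} (h : l :: w ∈ Geo (n + 1)) :
    w ∈ Geo n := by
  obtain ⟨h1, h2⟩ := h
  rw [List.length_cons] at h1
  have h3 : w.length = n := by omega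
  refine ⟨h3, ?_⟩
  have h4 := len_evw_le w
  rw [evw_cons] at h2
  have h5 := len_mul_le l (evw w)
  omega

/-! ### The position function -/

/-- One step of the Gray code. -/
def posStep (x : Bool) (m : ℕ) : ℕ := if x then 2 * m + m % 2 else 2 * m + (1 - m % 2)

/-- The position of `g · 1ⁿ` in the Schreier graph of level `n`. -/
def pos : ℕ → G → ℕ
  | 0, _ => 0
  | n + 1, g => posStep (act g true) (pos n (sec g true))

theorem pos_zero (g : G) : pos 0 g = 0 := rfl
theorem pos_succ (n : ℕ) (g : G) : pos (n + 1) g = posStep (act g true) (pos n (sec g true)) := rfl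

theorem pos_lt (n : ℕ) (g : G) : pos n g < 2 ^ n := by
  induction n generalizing g with
  | zero => simp [pos_zero]
  | succ n ih =>
    have := ih (sec g true)
    rw [pos_succ, posStep, pow_succ]
    split_ifs <;> omega

theorem pos_one (n : ℕ) : pos n 1 = 0 := by
  induction n with
  | zero => rfl
  | succ n ih => rw [pos_succ, act_one, sec_one, ih]; rfl

theorem pos_a (n : ℕ) (g : G) :
    pos (n + 1) (a * g) = if pos (n + 1) g % 2 = 0 then pos (n + 1) g + 1
      else pos (n + 1) g - 1 := by
  have h1 : act (a * g) true = !(act g true) := by
    rw [act_mul]; exact act_ev Letter.a _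
  have h2 : sec (a * g) true = sec g true := by
    rw [sec_mul]
    have : sec a (act g true) = 1 := sec_ev Letter.a _
    rw [this, one_mul]
  rw [pos_succ, pos_succ, h1, h2]
  generalize pos n (sec g true) = m
  rcases act g true <;> simp only [posStep, Bool.not_true, Bool.not_false, if_true, if_false,
    Bool.false_eq_true] <;> split_ifs <;> omega

/-- The rotation `b → d → c → b` of the letters. -/
def rot : Letter → Letter
  | Letter.a => Letter.a
  | Letter.b => Letter.d
  | Letter.c => Letter.b
  | Letter.d => Letter.c

/-- The letter which fixes the edge at position `m`. -/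
def Fix : ℕ → ℕ → Letter
  | 0, _ => Letter.b
  | n + 1, m => if m % 4 = 1 ∨ m % 4 = 2 then Letter.d else rot (Fix n (m / 2))

theorem Fix_ne_a (n m : ℕ) : Fix n m ≠ Letter.a := by
  induction n generalizing m with
  | zero => simp [Fix]
  | succ n ih =>
    rw [Fix]
    split_ifs
    · simp
    · have := ih (m / 2)
      revert this
      generalize Fix n (m / 2) = l
      rcases l <;> simp [rot]

/-- The other end of the edge labelled by two of `b, c, d`. -/
def beta (n m : ℕ) : ℕ := if m % 2 = 1 then (if m + 1 < 2 ^ n then m + 1 else m) else m - 1

theorem pos_bcd (n : ℕ) (g : G) (l : Letter) (hl : l ≠ Letter.a) :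
    pos n (ev l * g) = if l = Fix n (pos n g) then pos n g else beta n (pos n g) := by
  induction n generalizing g l with
  | zero =>
    rw [pos_zero, pos_zero]
    simp [beta]
  | succ n ih =>
    have hact : act (ev l * g) true = act g true := by
      rw [act_mul, act_ev]
      rcases l with _ | _ | _ | _
      · exact absurd rfl hl
      all_goals rfl
    have hsec : sec (ev l * g) true = lsec l (act g true) * sec g true := by
      rw [sec_mul, sec_ev]
    have hlt := pos_lt n (sec g true)
    rw [pos_succ, hact, hsec, pos_succ]
    rcases hx : act g true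
    · -- the section is `a` or `1`
      have hm4 : posStep false (pos n (sec g true)) % 4 = 1 ∨
          posStep false (pos n (sec g true)) % 4 = 2 := by
        simp only [posStep, Bool.false_eq_true, if_false]
        omega
      have hFix : Fix (n + 1) (posStep false (pos n (sec g true))) = Letter.d := by
        rw [Fix, if_pos hm4]
      rw [hFix]
      have hmove : posStep false (pos n (a * sec g true)) =
          beta (n + 1) (posStep false (pos n (sec g true))) := by
        rcases n with _ | k
        · simp [pos_zero, posStep, beta]
        · rw [pos_a]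
          generalize pos (k + 1) (sec g true) = m at hlt
          rw [pow_succ] at hlt
          simp only [posStep, beta, Bool.false_eq_true, if_false, pow_succ]
          split_ifs <;> omega
      rcases l with _ | _ | _ | _
      · exact absurd rfl hl
      · simpa [lsec] using hmove
      · simpa [lsec] using hmove
      · simp [lsec]
    · have hm4 : ¬ (posStep true (pos n (sec g true)) % 4 = 1 ∨
          posStep true (pos n (sec g true)) % 4 = 2) := by
        simp only [posStep, if_true]
        omega
      have hdiv : posStep true (pos n (sec g true)) / 2 = pos n (sec g true) := by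
        simp only [posStep, if_true]
        omega
      have hFix : Fix (n + 1) (posStep true (pos n (sec g true))) =
          rot (Fix n (pos n (sec g true))) := by
        rw [Fix, if_neg hm4, hdiv]
      have hbeta : posStep true (beta n (pos n (sec g true))) =
          beta (n + 1) (posStep true (pos n (sec g true))) := by
        generalize pos n (sec g true) = m at hlt
        simp only [posStep, beta, if_true, pow_succ]
        split_ifs <;> omega
      rw [hFix]
      have hne := Fix_ne_a n (pos n (sec g true))
      rcases l with _ | _ | _ | _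
      · exact absurd rfl hl
      · have h1 := ih (sec g true) Letter.c (by simp)
        have h2 : lsec Letter.b true = ev Letter.c := rfl
        rw [h2, h1]
        have h3 : (Letter.b = rot (Fix n (pos n (sec g true)))) ↔
            (Letter.c = Fix n (pos n (sec g true))) := by
          revert hne
          generalize Fix n (pos n (sec g true)) = l
          rcases l <;> simp [rot]
        by_cases h4 : Letter.c = Fix n (pos n (sec g true))
        · rw [if_pos h4, if_pos (h3.2 h4)]
        · rw [if_neg h4, if_neg (fun h => h4 (h3.1 h)), hbeta]
      · have h1 := ih (sec g true) Letter.d (by simp)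
        have h2 : lsec Letter.c true = ev Letter.d := rfl
        rw [h2, h1]
        have h3 : (Letter.c = rot (Fix n (pos n (sec g true)))) ↔
            (Letter.d = Fix n (pos n (sec g true))) := by
          revert hne
          generalize Fix n (pos n (sec g true)) = l
          rcases l <;> simp [rot]
        by_cases h4 : Letter.d = Fix n (pos n (sec g true))
        · rw [if_pos h4, if_pos (h3.2 h4)]
        · rw [if_neg h4, if_neg (fun h => h4 (h3.1 h)), hbeta]
      · have h1 := ih (sec g true) Letter.b (by simp)
        have h2 : lsec Letter.d true = ev Letter.b := rfl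
        rw [h2, h1]
        have h3 : (Letter.d = rot (Fix n (pos n (sec g true)))) ↔
            (Letter.b = Fix n (pos n (sec g true))) := by
          revert hne
          generalize Fix n (pos n (sec g true)) = l
          rcases l <;> simp [rot]
        by_cases h4 : Letter.b = Fix n (pos n (sec g true))
        · rw [if_pos h4, if_pos (h3.2 h4)]
        · rw [if_neg h4, if_neg (fun h => h4 (h3.1 h)), hbeta]

theorem pos_mul_le (n : ℕ) (l : Letter) (g : G) : pos n (ev l * g) ≤ pos n g + 1 := by
  by_cases hl : l = Letter.a
  · subst hl
    rcases n with _ | n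
    · simp [pos_zero]
    · have h : pos (n + 1) (ev Letter.a * g) = pos (n + 1) (a * g) := rfl
      rw [h, pos_a]
      split_ifs <;> omega
  · rw [pos_bcd n g l hl]
    unfold beta
    split_ifs <;> omega

theorem pos_le_length (n : ℕ) (w : List Letter) : pos n (evw w) ≤ w.length := by
  induction w with
  | nil => simp [pos_one]
  | cons l w ih =>
    have := pos_mul_le n l (evw w)
    rw [evw_cons, List.length_cons]
    omega

theorem pos_le_len (n : ℕ) (g : G) : pos n g ≤ len g := by
  obtain ⟨w, hw, hl⟩ := exists_len g
  have := pos_le_length n w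
  rwa [hw, hl] at this

/-! ### Many geodesic words -/

/-- The letters among `b, c, d` different from `l`. -/
def other (l : Letter) : Finset Letter := ({Letter.b, Letter.c, Letter.d} : Finset Letter).erase l

theorem two_le_card_other (l : Letter) : 2 ≤ (other l).card := by
  rcases l <;> decide

theorem mem_other {l m : Letter} (h : m ∈ other l) : m ≠ l ∧ m ≠ Letter.a := by
  rcases l <;> rcases m <;> revert h <;> decide

/-- A set of words of length `ℓ` which trace a path in the Schreier graph. -/
def Z (n : ℕ) : ℕ → Finset (List Letter)
  | 0 => {[]}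
  | ℓ + 1 => if ℓ % 2 = 0 then (Z n ℓ).image (fun w => Letter.a :: w)
      else (other (Fix n ℓ) ×ˢ Z n ℓ).image (fun p => p.1 :: p.2)

theorem mem_Z {n ℓ : ℕ} (h : ℓ < 2 ^ n) {w : List Letter} (hw : w ∈ Z n ℓ) :
    w.length = ℓ ∧ pos n (evw w) = ℓ := by
  induction ℓ generalizing w with
  | zero =>
    rw [Z, Finset.mem_singleton] at hw
    subst hw
    simp [pos_one]
  | succ ℓ ih =>
    rw [Z] at hw
    split_ifs at hw with hpar
    · obtain ⟨u, hu, rfl⟩ := Finset.mem_image.1 hw
      obtain ⟨h1, h2⟩ := ih (by omega) hu
      refine ⟨by simp [h1], ?_⟩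
      rcases n with _ | n
      · simp at h
      · have h3 : pos (n + 1) (evw (Letter.a :: u)) = pos (n + 1) (a * evw u) := rfl
        rw [h3, pos_a, h2, if_pos hpar]
    · obtain ⟨⟨l, u⟩, hu, rfl⟩ := Finset.mem_image.1 hw
      rw [Finset.mem_product] at hu
      obtain ⟨h1, h2⟩ := ih (by omega) hu.2
      obtain ⟨h3, h4⟩ := mem_other hu.1
      refine ⟨by simp [h1], ?_⟩
      rw [evw_cons, pos_bcd n _ _ h4, h2, if_neg h3, beta, if_pos (by omega), if_pos h]

theorem card_Z (n ℓ : ℕ) : 2 ^ (ℓ / 2) ≤ (Z n ℓ).card := by
  induction ℓ with
  | zero => simp [Z]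
  | succ ℓ ih =>
    rw [Z]
    split_ifs with hpar
    · rw [Finset.card_image_of_injective _ (fun u v h => by simpa using h)]
      have : (ℓ + 1) / 2 = ℓ / 2 := by omega
      rwa [this]
    · rw [Finset.card_image_of_injective _ (fun u v h => by
        rcases u with ⟨u1, u2⟩; rcases v with ⟨v1, v2⟩; simpa using h), Finset.card_product]
      have : (ℓ + 1) / 2 = ℓ / 2 + 1 := by omega
      rw [this, pow_succ, mul_comm]
      exact Nat.mul_le_mul (two_le_card_other _) ih

/-- **Lower bound** for the number of geodesic words. -/
theorem two_pow_le_ncard_Geo (n : ℕ) : 2 ^ (n / 2) ≤ (Geo n).ncard := by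
  have h1 : ((Z n n : Finset (List Letter)) : Set (List Letter)) ⊆ Geo n := by
    intro w hw
    obtain ⟨h2, h3⟩ := mem_Z (Nat.lt_two_pow_self) (Finset.mem_coe.1 hw)
    refine ⟨h2, ?_⟩
    have h4 := pos_le_len n (evw w)
    have h5 := len_evw_le w
    omega
  have h2 := Set.ncard_le_ncard h1 (Geo_finite n)
  rw [Set.ncard_coe_finset] at h2
  exact (card_Z n n).trans h2

end Pool.Agent.H4.Grig
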