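import Pool.Agent.H4.Grig.Lower

/-!
# The upper bound for the number of geodesic words
-/

namespace Pool.Agent.H4.Grig

open scoped ENNReal Classical

/-- Upper bounds for the numbers of geodesic words of length `n + 1` with product `g` whose first
letter is `a` (first component) or one of `b`, `c`, `d` (second component). -/
noncomputable def fAQ : ℕ → G → ℕ × ℕ
  | 0, g => (if g = a then 1 else 0,
      (if g = b then 1 else 0) + (if g = c then 1 else 0) + (if g = d then 1 else 0))
  | n + 1, g => (if len g = n + 2 then (fAQ n (a * g)).2 else 0,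
      if len g = n + 2 then (fAQ n (b * g)).1 + (fAQ n (c * g)).1 + (fAQ n (d * g)).1 else 0)

/-- First component of `fAQ`. -/
noncomputable def fA (n : ℕ) (g : G) : ℕ := (fAQ n g).1
/-- Second component of `fAQ`. -/
noncomputable def fQ (n : ℕ) (g : G) : ℕ := (fAQ n g).2

theorem fA_zero (g : G) : fA 0 g = if g = a then 1 else 0 := rfl
theorem fQ_zero (g : G) : fQ 0 g =
    (if g = b then 1 else 0) + (if g = c then 1 else 0) + (if g = d then 1 else 0) := rfl
theorem fA_succ (n : ℕ) (g : G) : fA (n + 1) g = if len g = n + 2 then fQ n (a * g) else 0 := rfl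
theorem fQ_succ (n : ℕ) (g : G) : fQ (n + 1) g =
    if len g = n + 2 then fA n (b * g) + fA n (c * g) + fA n (d * g) else 0 := rfl

/-- Geodesic words of length `n + 1` with product `g` and first letter `a`. -/
def GA (n : ℕ) (g : G) : Set (List Letter) :=
  {w | w ∈ Geo (n + 1) ∧ evw w = g ∧ ∃ u, w = Letter.a :: u}

/-- Geodesic words of length `n + 1` with product `g` and first letter `l`. -/
def GW (l : Letter) (n : ℕ) (g : G) : Set (List Letter) :=
  {w | w ∈ Geo (n + 1) ∧ evw w = g ∧ ∃ u, w = l :: u}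

theorem GW_finite (l : Letter) (n : ℕ) (g : G) : (GW l n g).Finite :=
  (Geo_finite (n + 1)).subset fun _ h => h.1

/-- Geodesic words of length `n + 1` with product `g` and first letter `b`, `c` or `d`. -/
def GQ (n : ℕ) (g : G) : Set (List Letter) :=
  GW Letter.b n g ∪ GW Letter.c n g ∪ GW Letter.d n g

theorem GQ_finite (n : ℕ) (g : G) : (GQ n g).Finite :=
  ((GW_finite _ _ _).union (GW_finite _ _ _)).union (GW_finite _ _ _)

theorem ev_mul_cancel (l : Letter) (g : G) : ev l * (ev l * g) = g := by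
  rw [← mul_assoc, ev_mul_self, one_mul]

/-- Two letters of `{b, c, d}` at the start of a word make it non-geodesic. -/
theorem not_geo_two {l m : Letter} (hl : l ≠ Letter.a) (hm : m ≠ Letter.a) {w : List Letter}
    {n : ℕ} : l :: m :: w ∉ Geo n := by
  rintro ⟨h1, h2⟩
  simp only [List.length_cons] at h1
  have h3 : ∃ u : List Letter, evw u = evw (l :: m :: w) ∧ u.length ≤ w.length + 1 := by
    have e1 : ∀ x : G, b * (b * x) = x := fun x => ev_mul_cancel Letter.b x
    have e2 : ∀ x : G, c * (c * x) = x := fun x => ev_mul_cancel Letter.c x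
    have e3 : ∀ x : G, d * (d * x) = x := fun x => ev_mul_cancel Letter.d x
    rcases l with _ | _ | _ | _ <;> rcases m with _ | _ | _ | _
    all_goals first
      | exact absurd rfl hl
      | exact absurd rfl hm
      | skip
    · exact ⟨w, by simp [ev, e1], by omega⟩
    · exact ⟨Letter.d :: w, by simp [ev, ← mul_assoc, b_mul_c], by simp⟩
    · exact ⟨Letter.c :: w, by simp [ev, ← mul_assoc, b_mul_d], by simp⟩
    · exact ⟨Letter.d :: w, by simp [ev, ← mul_assoc, c_mul_b], by simp⟩
    · exact ⟨w, by simp [ev, e2], by omega⟩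
    · exact ⟨Letter.b :: w, by simp [ev, ← mul_assoc, c_mul_d], by simp⟩
    · exact ⟨Letter.c :: w, by simp [ev, ← mul_assoc, d_mul_b], by simp⟩
    · exact ⟨Letter.b :: w, by simp [ev, ← mul_assoc, d_mul_c], by simp⟩
    · exact ⟨w, by simp [ev, e3], by omega⟩
  obtain ⟨u, hu, hu'⟩ := h3
  have := len_le hu
  omega

theorem not_geo_aa {w : List Letter} {n : ℕ} : Letter.a :: Letter.a :: w ∉ Geo n := by
  rintro ⟨h1, h2⟩
  simp only [List.length_cons] at h1
  have h3 : evw (Letter.a :: Letter.a :: w) = evw w := by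
    rw [evw_cons, evw_cons, ev_mul_cancel]
  have := len_evw_le w
  rw [← h3] at this
  omega

theorem GW_succ_ncard_le (l : Letter) (n : ℕ) (g : G) (T : Set (List Letter)) (hT : T.Finite)
    (h : ∀ u, l :: u ∈ Geo (n + 2) → evw (l :: u) = g → u ∈ T) :
    (GW l (n + 1) g).ncard ≤ T.ncard := by
  apply Set.ncard_le_ncard_of_injOn (fun w => w.tail) _ _ hT
  · rintro w ⟨hw1, hw2, u, rfl⟩
    exact h u hw1 hw2
  · rintro w ⟨_, _, u, rfl⟩ w' ⟨_, _, u', rfl⟩ h
    simpa using h

theorem ncard_G_le (n : ℕ) : ∀ g, (GW Letter.a n g).ncard ≤ fA n g ∧ (GQ n g).ncard ≤ fQ n g := by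
  induction n with
  | zero =>
    have h1 : ∀ l g, (GW l 0 g).ncard ≤ if g = ev l then 1 else 0 := by
      intro l g
      have h2 : GW l 0 g ⊆ {w | w = [l] ∧ g = ev l} := by
        rintro w ⟨⟨hw, _⟩, hg, u, rfl⟩
        have : u = [] := by simpa using hw
        subst this
        refine ⟨rfl, ?_⟩
        rw [← hg]
        simp
      split_ifs with hg
      · have h3 : GW l 0 g ⊆ {[l]} := fun w hw => (h2 hw).1
        have := Set.ncard_le_ncard h3 (Set.finite_singleton _)
        rwa [Set.ncard_singleton] at this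
      · have h3 : GW l 0 g = ∅ := by
          rw [Set.eq_empty_iff_forall_notMem]
          intro w hw
          exact hg (h2 hw).2
        rw [h3]
        simp
    intro g
    refine ⟨h1 _ _, ?_⟩
    rw [fQ_zero]
    refine (Set.ncard_union_le _ _).trans ?_
    refine Nat.add_le_add ((Set.ncard_union_le _ _).trans ?_) (h1 _ _)
    exact Nat.add_le_add (h1 _ _) (h1 _ _)
  | succ n ih =>
    have hempty : ∀ l g, len g ≠ n + 2 → GW l (n + 1) g = ∅ := by
      intro l g hg
      rw [Set.eq_empty_iff_forall_notMem]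
      rintro w ⟨⟨_, hw⟩, rfl, _⟩
      exact hg hw
    intro g
    refine ⟨?_, ?_⟩
    · rw [fA_succ]
      split_ifs with hg
      · refine le_trans ?_ (ih (a * g)).2
        apply GW_succ_ncard_le _ _ _ _ (GQ_finite _ _)
        intro u hu hg'
        have hu' := Geo_tail hu
        have hev : evw u = a * g := by
          rw [← hg', evw_cons]
          exact (ev_mul_cancel Letter.a _).symm
        rcases u with _ | ⟨m, u⟩
        · simp [Geo] at hu'
        · rcases m with _ | _ | _ | _
          · exact absurd hu not_geo_aa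
          · exact Or.inl (Or.inl ⟨hu', hev, _, rfl⟩)
          · exact Or.inl (Or.inr ⟨hu', hev, _, rfl⟩)
          · exact Or.inr ⟨hu', hev, _, rfl⟩
      · rw [hempty _ _ hg]
        simp
    · rw [fQ_succ]
      split_ifs with hg
      · have h1 : ∀ l, l ≠ Letter.a → (GW l (n + 1) g).ncard ≤ fA n (ev l * g) := by
          intro l hl
          refine le_trans ?_ (ih (ev l * g)).1
          apply GW_succ_ncard_le _ _ _ _ (GW_finite _ _ _)
          intro u hu hg'
          have hu' := Geo_tail hu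
          have hev : evw u = ev l * g := by
            rw [← hg', evw_cons]
            exact (ev_mul_cancel l _).symm
          rcases u with _ | ⟨m, u⟩
          · simp [Geo] at hu'
          · by_cases hm : m = Letter.a
            · subst hm
              exact ⟨hu', hev, _, rfl⟩
            · exact absurd hu (not_geo_two hl hm)
        refine (Set.ncard_union_le _ _).trans ?_
        refine Nat.add_le_add ((Set.ncard_union_le _ _).trans ?_) (h1 _ (by simp))
        exact Nat.add_le_add (h1 _ (by simp)) (h1 _ (by simp))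
      · rw [GQ, hempty _ _ hg, hempty _ _ hg, hempty _ _ hg]
        simp

theorem fAQ_support (n : ℕ) (g : G) (h : len g ≠ n + 2) : fA (n + 1) g = 0 ∧ fQ (n + 1) g = 0 := by
  rw [fA_succ, fQ_succ, if_neg h, if_neg h]
  exact ⟨rfl, rfl⟩

theorem len_ev (l : Letter) : len (ev l) ≤ 1 := by
  have := len_evw_le [l]
  simpa using this

theorem ev_ne_one (l : Letter) : ev l ≠ 1 := by
  have ha : a ≠ 1 := by
    intro h
    have := congrArg pi h
    rw [map_one, pi_a] at this
    exact absurd this (by decide)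
  have hc : c ≠ 1 := by
    intro h
    have := congrArg pi h
    rw [map_one, pi_c] at this
    exact absurd this (by decide)
  have hd : d ≠ 1 := by
    intro h
    have := congrArg pi h
    rw [map_one, pi_d] at this
    exact absurd this (by decide)
  have hb : b ≠ 1 := by
    intro h
    have h1 : sec b false = a := sec_ev Letter.b false
    rw [h, sec_one] at h1
    exact ha h1.symm
  rcases l with _ | _ | _ | _
  · exact ha
  · exact hb
  · exact hc
  · exact hd

theorem len_eq_zero {g : G} (h : len g = 0) : g = 1 := by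
  obtain ⟨w, hw, hl⟩ := exists_len g
  rw [h] at hl
  have : w = [] := List.length_eq_zero_iff.1 hl
  subst this
  exact hw.symm

theorem len_ev_eq (l : Letter) : len (ev l) = 1 := by
  have h1 := len_ev l
  have h2 : len (ev l) ≠ 0 := fun h => ev_ne_one l (len_eq_zero h)
  omega

theorem fA_support (n : ℕ) (g : G) (h : len g ≠ n + 1) : fA n g = 0 := by
  rcases n with _ | n
  · rw [fA_zero, if_neg]
    rintro rfl
    exact h (len_ev_eq Letter.a)
  · exact (fAQ_support n g h).1

/-! ### The quadratic form -/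

/-- The sum of the squares. -/
noncomputable def SS (f : G → ℕ) : ℝ≥0∞ := ∑' g, (f g : ℝ≥0∞) ^ 2

theorem tsum_mul_left_ev (l : Letter) (F : G → ℝ≥0∞) : ∑' g, F (ev l * g) = ∑' g, F g :=
  (Equiv.mulLeft (ev l)).tsum_eq F

theorem SS_fA_succ (n : ℕ) : SS (fA (n + 1)) ≤ SS (fQ n) := by
  unfold SS
  rw [← tsum_mul_left_ev Letter.a (fun g => (fQ n g : ℝ≥0∞) ^ 2)]
  apply ENNReal.tsum_le_tsum
  intro g
  rw [fA_succ]
  split_ifs
  · exact le_rfl
  · simp

/-- Indicator of `len g = n`. -/
noncomputable def ind (n : ℕ) (g : G) : ℕ := if len g = n then 1 else 0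

theorem sq_le_aux {x y z i j k : ℕ} (hi : i = 0 ∨ i = 1) (hj : j = 0 ∨ j = 1) (hk : k = 0 ∨ k = 1)
    (hx : i = 0 → x = 0) (hy : j = 0 → y = 0) (hz : k = 0 → z = 0) :
    (x + y + z) ^ 2 ≤ (i + j + k) * (x ^ 2 + y ^ 2 + z ^ 2) := by
  have hx' : i = 0 ∧ x = 0 ∨ i = 1 := by
    rcases hi with hi | hi
    · exact Or.inl ⟨hi, hx hi⟩
    · exact Or.inr hi
  have hy' : j = 0 ∧ y = 0 ∨ j = 1 := by
    rcases hj with hj | hj
    · exact Or.inl ⟨hj, hy hj⟩
    · exact Or.inr hj
  have hz' : k = 0 ∧ z = 0 ∨ k = 1 := by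
    rcases hk with hk | hk
    · exact Or.inl ⟨hk, hz hk⟩
    · exact Or.inr hk
  clear hi hj hk hx hy hz
  zify
  rcases hx' with ⟨rfl, rfl⟩ | rfl <;> rcases hy' with ⟨rfl, rfl⟩ | rfl <;>
    rcases hz' with ⟨rfl, rfl⟩ | rfl <;> push_cast
  all_goals first
    | nlinarith
    | nlinarith [sq_nonneg ((y : ℤ) - z)]
    | nlinarith [sq_nonneg ((x : ℤ) - z)]
    | nlinarith [sq_nonneg ((x : ℤ) - y)]
    | nlinarith [sq_nonneg ((x : ℤ) - y), sq_nonneg ((y : ℤ) - z), sq_nonneg ((x : ℤ) - z)]

theorem SS_fQ_succ (n : ℕ) : SS (fQ (n + 1)) ≤ 4 * SS (fA n) := by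
  -- pointwise bound
  have h1 : ∀ g, (fQ (n + 1) g : ℝ≥0∞) ^ 2 ≤
      (ind (n + 2) g * (ind (n + 1) (b * g) + ind (n + 1) (c * g) + ind (n + 1) (d * g)) : ℕ) *
        ((fA n (b * g) : ℝ≥0∞) ^ 2 + (fA n (c * g) : ℝ≥0∞) ^ 2 + (fA n (d * g) : ℝ≥0∞) ^ 2) := by
    intro g
    rw [fQ_succ]
    by_cases hg : len g = n + 2
    · rw [if_pos hg]
      have hind : ind (n + 2) g = 1 := by rw [ind, if_pos hg]
      rw [hind, one_mul]
      have h01 : ∀ x : G, ind (n + 1) x = 0 ∨ ind (n + 1) x = 1 := by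
        intro x; rw [ind]; split_ifs <;> simp
      have h0 : ∀ x : G, ind (n + 1) x = 0 → fA n x = 0 := by
        intro x hx
        apply fA_support
        intro h
        rw [ind, if_pos h] at hx
        exact one_ne_zero hx
      have := sq_le_aux (h01 (b * g)) (h01 (c * g)) (h01 (d * g)) (h0 (b * g)) (h0 (c * g))
        (h0 (d * g))
      exact_mod_cast this
    · rw [if_neg hg]
      simp
  -- the kernel after the substitutions
  let K : Letter → G → ℝ≥0∞ := fun l u =>
    ((ind (n + 2) (ev l * u) * (ind (n + 1) (b * (ev l * u)) + ind (n + 1) (c * (ev l * u)) +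
      ind (n + 1) (d * (ev l * u))) : ℕ) : ℝ≥0∞)
  have h2 : ∀ l : Letter, ∑' g, ((ind (n + 2) g * (ind (n + 1) (b * g) + ind (n + 1) (c * g) +
      ind (n + 1) (d * g)) : ℕ) : ℝ≥0∞) * (fA n (ev l * g) : ℝ≥0∞) ^ 2 =
      ∑' u, K l u * (fA n u : ℝ≥0∞) ^ 2 := by
    intro l
    rw [← tsum_mul_left_ev l (fun g => ((ind (n + 2) g * (ind (n + 1) (b * g) +
      ind (n + 1) (c * g) + ind (n + 1) (d * g)) : ℕ) : ℝ≥0∞) * (fA n (ev l * g) : ℝ≥0∞) ^ 2)]
    congr 1
    funext u
    rw [ev_mul_cancel]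
  calc SS (fQ (n + 1)) ≤ ∑' g, ((ind (n + 2) g * (ind (n + 1) (b * g) + ind (n + 1) (c * g) +
          ind (n + 1) (d * g)) : ℕ) : ℝ≥0∞) *
        ((fA n (b * g) : ℝ≥0∞) ^ 2 + (fA n (c * g) : ℝ≥0∞) ^ 2 + (fA n (d * g) : ℝ≥0∞) ^ 2) :=
        ENNReal.tsum_le_tsum h1
    _ = ∑' u, K Letter.b u * (fA n u : ℝ≥0∞) ^ 2 + ∑' u, K Letter.c u * (fA n u : ℝ≥0∞) ^ 2 +
          ∑' u, K Letter.d u * (fA n u : ℝ≥0∞) ^ 2 := by
        rw [← h2, ← h2, ← h2, ← ENNReal.tsum_add, ← ENNReal.tsum_add]
        congr 1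
        funext g
        rw [mul_add, mul_add]
        rfl
    _ = ∑' u, (K Letter.b u + K Letter.c u + K Letter.d u) * (fA n u : ℝ≥0∞) ^ 2 := by
        rw [← ENNReal.tsum_add, ← ENNReal.tsum_add]
        congr 1
        funext u
        rw [add_mul, add_mul]
    _ ≤ ∑' u, 4 * (fA n u : ℝ≥0∞) ^ 2 := by
        apply ENNReal.tsum_le_tsum
        intro u
        by_cases hu : len u = n + 1
        · gcongr
          show (_ : ℝ≥0∞) + _ + _ ≤ 4
          have ebb : b * (b * u) = u := ev_mul_cancel Letter.b u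
          have ecc : c * (c * u) = u := ev_mul_cancel Letter.c u
          have edd : d * (d * u) = u := ev_mul_cancel Letter.d u
          have ebc : b * (c * u) = d * u := by rw [← mul_assoc, b_mul_c]
          have ecb : c * (b * u) = d * u := by rw [← mul_assoc, c_mul_b]
          have ebd : b * (d * u) = c * u := by rw [← mul_assoc, b_mul_d]
          have edb : d * (b * u) = c * u := by rw [← mul_assoc, d_mul_b]
          have ecd : c * (d * u) = b * u := by rw [← mul_assoc, c_mul_d]
          have edc : d * (c * u) = b * u := by rw [← mul_assoc, d_mul_c]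
          have key : ind (n + 2) (b * u) * (ind (n + 1) (b * (b * u)) + ind (n + 1) (c * (b * u)) +
              ind (n + 1) (d * (b * u))) +
              ind (n + 2) (c * u) * (ind (n + 1) (b * (c * u)) + ind (n + 1) (c * (c * u)) +
              ind (n + 1) (d * (c * u))) +
              ind (n + 2) (d * u) * (ind (n + 1) (b * (d * u)) + ind (n + 1) (c * (d * u)) +
              ind (n + 1) (d * (d * u))) ≤ 4 := by
            rw [ebb, ecc, edd, ebc, ecb, ebd, edb, ecd, edc]
            have hu1 : ind (n + 1) u = 1 := by rw [ind, if_pos hu]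
            rw [hu1]
            have h01 : ∀ x : G, (ind (n + 2) x = 0 ∧ ind (n + 1) x = 0) ∨
                (ind (n + 2) x = 1 ∧ ind (n + 1) x = 0) ∨
                (ind (n + 2) x = 0 ∧ ind (n + 1) x = 1) := by
              intro x
              rw [ind, ind]
              split_ifs with h1 h2
              · omega
              · simp
              · simp
              · simp
            rcases h01 (b * u) with ⟨p1, p2⟩ | ⟨p1, p2⟩ | ⟨p1, p2⟩ <;>
            rcases h01 (c * u) with ⟨q1, q2⟩ | ⟨q1, q2⟩ | ⟨q1, q2⟩ <;>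
            rcases h01 (d * u) with ⟨r1, r2⟩ | ⟨r1, r2⟩ | ⟨r1, r2⟩ <;>
            rw [p1, p2, q1, q2, r1, r2] <;> norm_num
          have key2 : ((ind (n + 2) (b * u) * (ind (n + 1) (b * (b * u)) +
              ind (n + 1) (c * (b * u)) + ind (n + 1) (d * (b * u))) : ℕ) : ℝ≥0∞) +
              ((ind (n + 2) (c * u) * (ind (n + 1) (b * (c * u)) + ind (n + 1) (c * (c * u)) +
              ind (n + 1) (d * (c * u))) : ℕ) : ℝ≥0∞) +
              ((ind (n + 2) (d * u) * (ind (n + 1) (b * (d * u)) + ind (n + 1) (c * (d * u)) +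
              ind (n + 1) (d * (d * u))) : ℕ) : ℝ≥0∞) ≤ 4 := by exact_mod_cast key
          exact key2
        · rw [fA_support n u hu]
          simp
    _ = 4 * SS (fA n) := by rw [ENNReal.tsum_mul_left]; rfl

theorem SS_zero : SS (fA 0) ≤ 1 ∧ SS (fQ 0) ≤ 9 := by
  have h1 : ∀ l : Letter, ∑' g : G, (if g = ev l then 1 else 0 : ℝ≥0∞) = 1 := by
    intro l
    rw [tsum_ite_eq]
  constructor
  · rw [← h1 Letter.a]
    unfold SS
    apply ENNReal.tsum_le_tsum
    intro g
    rw [fA_zero]
    show ((if g = a then 1 else 0 : ℕ) : ℝ≥0∞) ^ 2 ≤ if g = a then 1 else 0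
    split_ifs <;> simp
  · have h2 : (9 : ℝ≥0∞) = ∑' g : G, 3 * ((if g = ev Letter.b then 1 else 0 : ℝ≥0∞) +
        (if g = ev Letter.c then 1 else 0 : ℝ≥0∞) + (if g = ev Letter.d then 1 else 0 : ℝ≥0∞)) := by
      rw [ENNReal.tsum_mul_left, ENNReal.tsum_add, ENNReal.tsum_add, h1, h1, h1]
      norm_num
    rw [h2]
    unfold SS
    apply ENNReal.tsum_le_tsum
    intro g
    rw [fQ_zero]
    show (((if g = b then 1 else 0) + (if g = c then 1 else 0) +
      (if g = d then 1 else 0) : ℕ) : ℝ≥0∞) ^ 2 ≤ 3 * ((if g = b then 1 else 0 : ℝ≥0∞) +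
        (if g = c then 1 else 0 : ℝ≥0∞) + (if g = d then 1 else 0 : ℝ≥0∞))
    split_ifs <;> norm_num

theorem SS_bound (n : ℕ) : 2 * SS (fA n) ≤ 9 * 2 ^ n ∧ SS (fQ n) ≤ 9 * 2 ^ n := by
  induction n with
  | zero =>
    obtain ⟨h1, h2⟩ := SS_zero
    refine ⟨?_, by simpa using h2⟩
    calc 2 * SS (fA 0) ≤ 2 * 1 := by gcongr
      _ ≤ 9 * 2 ^ 0 := by norm_num
  | succ n ih =>
    obtain ⟨h1, h2⟩ := ih
    constructor
    · calc 2 * SS (fA (n + 1)) ≤ 2 * SS (fQ n) := by gcongr; exact SS_fA_succ n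
        _ ≤ 2 * (9 * 2 ^ n) := by gcongr
        _ = 9 * 2 ^ (n + 1) := by ring
    · calc SS (fQ (n + 1)) ≤ 4 * SS (fA n) := SS_fQ_succ n
        _ = 2 * (2 * SS (fA n)) := by ring
        _ ≤ 2 * (9 * 2 ^ n) := by gcongr
        _ = 9 * 2 ^ (n + 1) := by ring

end Pool.Agent.H4.Grig
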